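import Pool.Agent.Q17.RR.Asm5
import Pool.Agent.Q184.FT.FLD

/-!
# Project RR: the reductions in the `F`-form
-/

set_option autoImplicit false

open scoped Classical

noncomputable section

namespace Pool.Agent.Q17.RR

open Pool.Agent.H254R3.IN hiding NN
open Pool.Agent.Y63.KR Pool.Agent.Q17.WR Pool.Agent.Q17.DC Pool.Agent.Q17.AM Pool.Agent.Q17.OS
open Pool.Agent.Q17.DM Pool.Agent.Q17.RB Pool.Agent.Q111.OS Pool.Agent.Q66.RB
open Pool.Agent.Y63.NV (centralValue IsClassFun numDzBlock numIrrInd KRB BAWC)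
open Pool.Agent.Q18.K (altQ numQ altQ_congr alt_bot numQ_true)

variable {F : Type} [Field F]

/-- the block `β` is stable under all automorphisms of `ℂ` -/
def FGst (red : integralClosure ℤ ℂ →+* F) {Γ : Type} [Group Γ] (β : (Γ → F) → F) : Prop :=
  ∀ (s : ℂ ≃+* ℂ) (χ : Γ → ℂ), IsIrr χ →
    (∀ f : Γ → F, IsClassFun f → centralValue red χ f = β f) →
    ∀ f : Γ → F, IsClassFun f → centralValue red (fun g => s (χ g)) f = β f

section

variable {p : ℕ} {O : ValuationSubring ℂ} {red : integralClosure ℤ ℂ →+* F}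
  {Γ : Type} [Group Γ] {B : Set (Γ → ℂ)} {β : (Γ → F) → F}

lemma fgst_of (h : Br O red B β) (hg : Gst B) : FGst red β := by
  intro s χ hχ h1
  have h2 : χ ∈ B := (h.mem χ).mpr ⟨hχ, h1⟩
  exact ((h.mem _).mp ((hg s χ).mp h2)).2

variable [hp : Fact p.Prime] [IsAlgClosed F] [CharP F p] [Fintype Γ]

lemma alt_all (hS : S_BRS) (hO : (p : ℂ) ∈ O.nonunits) (hM : Mt O red) (hB : IsBlock O B)
    (hβ : Pool.Agent.Y63.NV.IsBlock β) (h : Br O red B β) :
    alternatingSum p Γ (fun H => (numIrrInd red H β : ℤ)) = SK p O B ∅ := by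
  have h1 := (hS p F red O hO hM Γ B β hB hβ h).1 ∅
  rw [← h1]
  have h2 : alternatingSum p Γ (fun H => (numIrrInd red H β : ℤ)) =
      altQ p (⊥ : Subgroup Γ) red β (fun _ => True) := by
    rw [← alt_bot]
    simp only [numQ_true]
  rw [h2]
  refine altQ_congr red β fun H χ _ => ?_
  exact ⟨fun _ s hs => absurd hs (Set.notMem_empty s), fun _ => trivial⟩

end

lemma fixed_iff {H : Type} [Group H] [Fintype H] {χ : H → ℂ} (hχ : IsIrr χ) {n : ℕ} (hn : 0 < n) :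
    (∀ s ∈ Kf n, ∀ g, s (χ g) = χ g) ↔
      ∀ g, χ g ∈ IntermediateField.adjoin ℚ {ζ : ℂ | ζ ^ n = 1} := by
  constructor
  · intro h g
    refine Pool.Agent.Q184.FT.mem_adjoin_of_fixed _ (Pool.Agent.Q184.FT.finite_roots n hn) ?_
      (χ g) ?_ fun s hs => h s hs g
    · intro ζ hζ
      refine IsIntegral.of_pow hn ?_
      rw [show ζ ^ n = 1 from hζ]
      exact isIntegral_one
    · exact (IsIrr.isIntegral hχ g).tower_top
  · intro h s hs g
    exact Pool.Agent.Q184.FT.fixed_of_mem_adjoin _ s hs _ (h g)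

/-- closure properties of a class of groups -/
structure ClX (p : ℕ) (X : ∀ (G : Type) [Group G], Prop) : Prop where
  wr : ∀ (G : Type) [Group G] [Finite G] (q : ℕ) [Fact q.Prime], X G → X (Wc G q)
  prod : ∀ (G : Type) [Group G] [Finite G] (v : ℕ) [NeZero v], ¬ p ∣ v → X G →
    X (G × Multiplicative (ZMod v))

/-- the class of pairs -/
def Cp (p : ℕ) (X : ∀ (G : Type) [Group G], Prop) (G : Type) [Group G] (D : Subgroup G) : Prop :=
  X G ∧ NN1 p G ∧ D ≠ ⊥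

lemma cp_wr {p : ℕ} [hp : Fact p.Prime] {X : ∀ (G : Type) [Group G], Prop}
    (hX : ∀ (G : Type) [Group G] [Finite G] (q : ℕ) [Fact q.Prime], X G → X (Wc G q))
    {G : Type} [Group G] [Finite G] {D : Subgroup G} (q : ℕ) [Fact q.Prime] (h : Cp p X G D) :
    Cp p X (Wc G q) (Da (Cy q) D) := by
  obtain ⟨h1, h2, h3⟩ := h
  refine ⟨hX G q h1, ?_, da_ne_bot h3⟩
  obtain ⟨g, hg⟩ : ∃ g : G, g ≠ 1 := by
    by_contra hn
    push Not at hn
    exact h3 ((Subgroup.eq_bot_iff_forall D).mpr fun g _ => hn g)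
  exact nn1_wc h2 hg

lemma clR_cp {p : ℕ} [hp : Fact p.Prime] {X : ∀ (G : Type) [Group G], Prop} (hX : ClX p X) :
    ClR p (Cp p X) := by
  refine ⟨fun G _ _ D q _ h => cp_wr hX.wr q h, ?_⟩
  rintro G _ _ D v _ hv ⟨h1, h2, h3⟩
  refine ⟨hX.prod G v hv h1, nn1_prod h2 hv, fun h => h3 ?_⟩
  refine (Subgroup.eq_bot_iff_forall D).mpr fun g hg => ?_
  have h4 : ((g, 1) : G × Multiplicative (ZMod v)) ∈
      D.prod (⊥ : Subgroup (Multiplicative (ZMod v))) :=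
    Subgroup.mem_prod.mpr ⟨hg, Subgroup.one_mem _⟩
  rw [h, Subgroup.mem_bot] at h4
  exact congrArg Prod.fst h4

section

variable {p : ℕ} [hp : Fact p.Prime] [IsAlgClosed F] [CharP F p]

/-- the Knörr-Robinson equality from the vanishing of the alternating sums in the `O`-form -/
theorem krb_of_zero (hBRO : S_BRO) (hBRC : S_BRC) (hBRS : S_BRS) (hDZK : S_DZK)
    (red : integralClosure ℤ ℂ →+* F) {Γ : Type} [Group Γ] [Finite Γ]
    (h : ∀ O : ValuationSubring ℂ, (p : ℂ) ∈ O.nonunits → Mt O red → ∀ [Fintype Γ]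
      (B : Set (Γ → ℂ)) (D : Subgroup Γ), IsBlock O B → IsDefectGroup p O B D → D ≠ ⊥ →
      SK p O B ∅ = 0) : KRB p red Γ := by
  have : Fintype Γ := Fintype.ofFinite Γ
  intro β hβ
  obtain ⟨O, hO, hM⟩ := hBRO p F red
  obtain ⟨B, hB, hBr⟩ := (hBRC p F red O hO hM Γ).2 β hβ
  rw [alt_all hBRS hO hM hB hβ hBr, (hBRS p F red O hO hM Γ B β hB hβ hBr).2]
  by_cases hP : Pos O B
  · obtain ⟨D, hD⟩ := (p_mmx Γ p O hO B hB).1
    rw [if_pos hP, h O hO hM B D hB hD (ne_bot_of_pos hO hB hD hP)]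
  · rw [if_neg hP, hDZK Γ p O hO B hB hP]

/-- rational-valued characters of Galois-stable blocks -/
theorem krb_R (hW : S_WPK) (hS : S_STF) (hT : S_TWK) (hR : S_RAS) (hBRO : S_BRO) (hBRC : S_BRC)
    (hBRS : S_BRS) (hDZK : S_DZK) {m b : ℕ} (hm : ∀ k, m ≠ p ^ k) (hb : p ≠ 2 ∨ 2 ≤ b)
    (red : integralClosure ℤ ℂ →+* F) {X : ∀ (G : Type) [Group G], Prop} (hX : ClX p X)
    (h : ∀ (Γ : Type) [Group Γ] [Finite Γ], X Γ → NN1 p Γ → ∀ β : (Γ → F) → F,
      Pool.Agent.Y63.NV.IsBlock β → FGst red β → numDzBlock p red β = 0 →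
      (m : ℤ) ∣ alternatingSum p Γ (fun H => (numQ red β (fun S => ∀ a ∈ S,
        a ∈ IntermediateField.adjoin ℚ {ζ : ℂ | ζ ^ (p ^ b) = 1}) H : ℤ)))
    {Γ : Type} [Group Γ] [Finite Γ] (hXΓ : X Γ) (h1 : NN1 p Γ) : KRB p red Γ := by
  obtain ⟨r, hr, hrm, hpr⟩ := Pool.Agent.Q17.AM.exists_prime hm
  have hrF : Fact r.Prime := ⟨hr⟩
  refine krb_of_zero hBRO hBRC hBRS hDZK red fun O hO hM _ B D hB hD hne => ?_
  refine main_O (r := r) (b := b) hW hS hT hR hpr hb hO (clR_cp hX) ?_ hB hD hne ⟨hXΓ, h1, hne⟩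
  rintro G _ _ B D hB hD hne ⟨h2, h3, -⟩ hg
  obtain ⟨β, hβ, hBr⟩ := (hBRC p F red O hO hM G).1 B hB
  have hP := p_pos G p O hO B hB D hD hne
  have h4 := hBRS p F red O hO hM G B β hB hβ hBr
  have h5 : numDzBlock p red β = 0 := by
    have h6 := h4.2
    rw [if_pos hP] at h6
    exact_mod_cast h6
  have h6 := h G h2 h3 β hβ (fgst_of hBr hg) h5
  rw [alt_bot] at h6
  have h7 : altQ p (⊥ : Subgroup G) red β (fun S => ∀ a ∈ S,
      a ∈ IntermediateField.adjoin ℚ {ζ : ℂ | ζ ^ (p ^ b) = 1}) = SK p O B (Kf (p ^ b)) := by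
    rw [← h4.1]
    refine altQ_congr red β fun H χ hχ => ?_
    have : Fintype H := Fintype.ofFinite H
    simp only [Set.forall_mem_range]
    exact (fixed_iff hχ (pow_pos hp.out.pos b)).symm
  rw [h7] at h6
  exact (Int.natCast_dvd_natCast.mpr hrm).trans h6

/-- all characters of Galois-stable blocks -/
theorem krb_A (hW : S_WPK) (hS : S_STF) (hG : S_GCK) (hBRO : S_BRO) (hBRC : S_BRC)
    (hBRS : S_BRS) (hDZK : S_DZK) {m : ℕ} (hm : ∀ k, m ≠ p ^ k)
    (red : integralClosure ℤ ℂ →+* F) {X : ∀ (G : Type) [Group G], Prop}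
    (hX : ∀ (G : Type) [Group G] [Finite G] (q : ℕ) [Fact q.Prime], X G → X (Wc G q))
    (h : ∀ (Γ : Type) [Group Γ] [Finite Γ], X Γ → NN1 p Γ → ∀ β : (Γ → F) → F,
      Pool.Agent.Y63.NV.IsBlock β → FGst red β → numDzBlock p red β = 0 →
      (m : ℤ) ∣ alternatingSum p Γ (fun H => (numIrrInd red H β : ℤ)))
    {Γ : Type} [Group Γ] [Finite Γ] (hXΓ : X Γ) (h1 : NN1 p Γ) : KRB p red Γ := by
  obtain ⟨r, hr, hrm, hpr⟩ := Pool.Agent.Q17.AM.exists_prime hm
  have hrF : Fact r.Prime := ⟨hr⟩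
  refine krb_of_zero hBRO hBRC hBRS hDZK red fun O hO hM _ B D hB hD hne => ?_
  refine main_A (r := r) (C := Cp p X) hW hS hG hpr hO
    (fun G _ _ D q _ _ h => cp_wr hX q h) ?_ hB hD hne ⟨hXΓ, h1, hne⟩
  rintro G _ _ B D hB hD hne ⟨h2, h3, -⟩ hg
  obtain ⟨β, hβ, hBr⟩ := (hBRC p F red O hO hM G).1 B hB
  have hP := p_pos G p O hO B hB D hD hne
  have h4 := hBRS p F red O hO hM G B β hB hβ hBr
  have h5 : numDzBlock p red β = 0 := by
    have h6 := h4.2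
    rw [if_pos hP] at h6
    exact_mod_cast h6
  have h6 := h G h2 h3 β hβ (fgst_of hBr hg) h5
  rw [alt_all hBRS hO hM hB hβ hBr] at h6
  exact (Int.natCast_dvd_natCast.mpr hrm).trans h6

end

end Pool.Agent.Q17.RR
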