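import Pool.Agent.Q17.RR.All
import Pool.Agent.Q212.RR.WPK
import Pool.Agent.Q238.RR.RAS
import Pool.Agent.Q238.RR.BRS
import Pool.Agent.Q238.RR.BRC

/-!
# Project RR: the parts
-/

set_option autoImplicit false

namespace Pool.Agent.Q17.RR

open Pool.Agent.Q17.AM Pool.Agent.Q17.DC Pool.Agent.Q17.DM Pool.Agent.Q17.OS

theorem r_wpk : S_WPK := Pool.Agent.Q212.RR.t_WPK d_alx r_asb r_ckw r_ckl r_out r_ckc p_fxb r_gck
theorem r_brc : S_BRC := Pool.Agent.Q238.RR.t_BRC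
theorem r_brs : S_BRS := Pool.Agent.Q238.RR.t_BRS
theorem r_ras : S_RAS := Pool.Agent.Q238.RR.t_RAS r_brf r_brc r_brs

end Pool.Agent.Q17.RR
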