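import Pool.Agent.Q17.RR.Asm6
import Pool.Agent.Q124.RR.ASB
import Pool.Agent.Q124.RR.WZB1
import Pool.Agent.Q124.RR.WZB2
import Pool.Agent.Q96.RR.GCK
import Pool.Agent.Q96.RR.UNI
import Pool.Agent.Q162.RR.CKW
import Pool.Agent.Q162.RR.CKL
import Pool.Agent.Q14.RR.OUT
import Pool.Agent.Q151.RR.CKC
import Pool.Agent.Q151.RR.STF
import Pool.Agent.Q151.RR.TWK
import Pool.Agent.Q151.RR.DZK
import Pool.Agent.Q102.RR.BRO
import Pool.Agent.Q102.RR.BRF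

/-!
# Project RR: the parts
-/

set_option autoImplicit false

namespace Pool.Agent.Q17.RR

open Pool.Agent.Q17.AM Pool.Agent.Q17.DC Pool.Agent.Q17.DM Pool.Agent.Q17.OS

theorem r_gck : S_GCK := Pool.Agent.Q96.RR.t_GCK
theorem r_uni : S_UNI := Pool.Agent.Q96.RR.t_UNI p_zpr p_fxi p_fxb
theorem r_ckw : S_CKW := Pool.Agent.Q162.RR.t_CKW p_zpr r_uni r_gck
theorem r_ckl : S_CKL := Pool.Agent.Q162.RR.t_CKL p_zpr p_cls r_uni r_gck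
theorem r_asb : S_ASB := Pool.Agent.Q124.RR.t_ASB Pool.Agent.Q111.OS.t_ADJ
  Pool.Agent.Q124.RR.t_WZB1 Pool.Agent.Q124.RR.t_WZB2
theorem r_out : S_OUT := Pool.Agent.Q14.RR.t_OUT Pool.Agent.Q38.DC.t_EXI
  Pool.Agent.Q111.DC.t_TRS s_mmx
theorem r_ckc : S_CKC := Pool.Agent.Q151.RR.t_CKC s_exc p_fxi p_fxb
theorem r_stf : S_STF := Pool.Agent.Q151.RR.t_STF p_zpr p_fxi
theorem r_twk : S_TWK := Pool.Agent.Q151.RR.t_TWK d_alx
  (Pool.Agent.Q224.OS.t_PRS Pool.Agent.Q111.OS.t_ADJ Pool.Agent.Q224.OS.t_WPX)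
theorem r_dzk : S_DZK := Pool.Agent.Q151.RR.t_DZK r_out s_mmx
theorem r_bro : S_BRO := Pool.Agent.Q102.RR.t_BRO
theorem r_brf : S_BRF := Pool.Agent.Q102.RR.t_BRF

end Pool.Agent.Q17.RR
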