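import Pool.Agent.Q17.RR.Lad
import Pool.Agent.Q17.DM.Fin

/-!
# Project RR: the alternating sums of all characters and the wreath products with cyclic groups
-/

set_option autoImplicit false

open scoped Classical

noncomputable section

namespace Pool.Agent.Q17.RR

open Pool.Agent.H254R3.IN hiding NN
open Pool.Agent.Y63.KR Pool.Agent.Q17.WR Pool.Agent.Q17.DC Pool.Agent.Q17.AM Pool.Agent.Q17.OS
open Pool.Agent.Q17.DM Pool.Agent.Q17.RB Pool.Agent.Q111.OS Pool.Agent.Q66.RB Pool.Agent.Q275.DM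

section

variable {Γ : Type} [Group Γ] [Fintype Γ] {p : ℕ} {O : ValuationSubring ℂ} {B : Set (Γ → ℂ)}

lemma exists_defect {H : Type} [Group H] [Finite H] {ψ : H → ℂ} (h : IsIrr ψ) (p : ℕ) :
    ∃ n : ℕ, (n : ℂ) = ψ 1 ∧ n.factorization p ≤ (Nat.card H).factorization p := by
  have : Fintype H := Fintype.ofFinite H
  obtain ⟨n, hn0, hn⟩ := IsIrr.deg h
  have h1 : n ∣ Nat.card H := Pool.Agent.Y63.AWC.deg_dvd h hn.symm
  exact ⟨n, hn, (Nat.factorization_le_iff_dvd hn0.ne' Nat.card_pos.ne').mpr h1 p⟩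

lemma ck_eq (H : Subgroup Γ) : (ck O B Set.univ ∅ H : ℤ) =
    ∑ d ∈ Finset.range ((Nat.card Γ).factorization p + 1), (cd p O B Set.univ d H : ℤ) := by
  have hle : (Nat.card H).factorization p ≤ (Nat.card Γ).factorization p :=
    (Nat.factorization_le_iff_dvd (Nat.card_pos (α := H)).ne' (Nat.card_pos (α := Γ)).ne').2
      (Subgroup.card_subgroup_dvd_card H) p
  have hfin : ({ψ : H → ℂ | IsIrr ψ}).Finite := Pool.Agent.Helper884.IC.irr_finite (G := H)
  have hex : ∀ ψ : H → ℂ, IsIrr ψ → Ind O B Set.univ H ψ →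
      ∃ d : Fin ((Nat.card Γ).factorization p + 1), Cd p O B Set.univ d H ψ := by
    intro ψ hψ hi
    obtain ⟨n, hn, hn'⟩ := exists_defect hψ p
    exact ⟨⟨(Nat.card H).factorization p - n.factorization p, by omega⟩, hψ, hi, n, hn, by
      change _ = (Nat.card H).factorization p - n.factorization p + n.factorization p
      omega⟩
  have huni : ∀ (ψ : H → ℂ) (d d' : ℕ), Cd p O B Set.univ d H ψ → Cd p O B Set.univ d' H ψ →
      d = d' := by
    rintro ψ d d' ⟨-, -, n, hn, h1⟩ ⟨-, -, n', hn', h2⟩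
    have h3 : n = n' := by
      have h4 : (n : ℂ) = (n' : ℂ) := hn.trans hn'.symm
      exact_mod_cast h4
    subst h3
    omega
  have hf : ∀ d : Fin ((Nat.card Γ).factorization p + 1),
      Finite {ψ : H → ℂ // Cd p O B Set.univ d H ψ} := fun d =>
    (hfin.subset fun ψ hψ => hψ.irr).to_subtype
  let e : {ψ : H → ℂ // IsIrr ψ ∧ Ind O B Set.univ H ψ ∧
        ∀ s ∈ (∅ : Set (ℂ ≃+* ℂ)), ∀ g, s (ψ g) = ψ g} ≃
      Σ d : Fin ((Nat.card Γ).factorization p + 1), {ψ : H → ℂ // Cd p O B Set.univ d H ψ} :=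
    { toFun := fun ψ => ⟨(hex ψ.1 ψ.2.1 ψ.2.2.1).choose, ψ.1, (hex ψ.1 ψ.2.1 ψ.2.2.1).choose_spec⟩
      invFun := fun x => ⟨x.2.1, x.2.2.irr, x.2.2.ind, fun s hs => absurd hs (Set.notMem_empty s)⟩
      left_inv := fun ψ => rfl
      right_inv := by
        rintro ⟨d, ψ, hψ⟩
        have h1 := (hex ψ hψ.irr hψ.ind).choose_spec
        have h2 : (hex ψ hψ.irr hψ.ind).choose = d := Fin.ext (huni ψ _ _ h1 hψ)
        exact Sigma.subtype_ext h2 rfl }
  have h1 : ck O B Set.univ ∅ H =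
      ∑ d : Fin ((Nat.card Γ).factorization p + 1), cd p O B Set.univ d H := by
    unfold ck cd
    rw [Nat.card_congr e, Nat.card_sigma]
  rw [h1, Finset.sum_range, Nat.cast_sum]

lemma altX_sum {ι : Type} (s : Finset ι) (w : ι → Set (Subgroup Γ) → ℤ) :
    altX p ⊤ ⊥ (fun σ => ∑ i ∈ s, w i σ) = ∑ i ∈ s, altX p ⊤ ⊥ (w i) := by
  unfold altX
  rw [← finsum_sum_comm]
  · refine finsum_congr fun c => ?_
    rw [Finset.mul_sum]
  · intro i _
    exact Set.toFinite _

lemma sk_eval : SK p O B ∅ = (PD p O B).eval 1 := by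
  have h1 : SK p O B ∅ = altX p ⊤ ⊥ (fun σ =>
      ∑ d ∈ Finset.range ((Nat.card Γ).factorization p + 1),
        (cd p O B Set.univ d (chainStabilizer σ) : ℤ)) := by
    unfold SK
    congr 1
    funext σ
    exact ck_eq _
  rw [h1, altX_sum]
  unfold PD
  rw [Polynomial.eval_finsetSum]
  refine Finset.sum_congr rfl fun d _ => ?_
  rw [Polynomial.eval_monomial, one_pow, mul_one]
  rfl

end

/-- the alternating sums of the numbers of all characters -/
theorem sk_id (p r : ℕ) [Fact p.Prime] [Fact r.Prime] (hpr : p ≠ r) (G : Type) [Group G]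
    [Fintype G] [Fintype (Wc G r)] (O : ValuationSubring ℂ) (hO : (p : ℂ) ∈ O.nonunits)
    (B : Set (G → ℂ)) (hB : IsBlock O B) (hP : Pos O B) :
    (r : ℤ) * SK p O (LX (r := r) B) ∅ =
      SK p O B ∅ ^ r + ((r : ℤ) ^ 2 - 1) * SK p O B ∅ := by
  have h1 := congrArg (Polynomial.eval 1) (dm_id p r hpr G O hO B hB hP)
  have hr1 : 1 ≤ r ^ 2 := Nat.one_le_pow _ _ (Fact.out : r.Prime).pos
  rw [Polynomial.eval_mul, Polynomial.eval_add, Polynomial.eval_mul, Polynomial.eval_pow,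
    Polynomial.expand_eval, one_pow, Polynomial.eval_natCast, Polynomial.eval_natCast,
    ← sk_eval, ← sk_eval] at h1
  rw [h1, Nat.cast_sub hr1]
  push_cast
  rfl

end Pool.Agent.Q17.RR
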