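import Pool.Agent.Q17.RR.Asm1

/-!
# Project RR: a block with an alternating sum which is not divisible by `r`
-/

set_option autoImplicit false

open scoped Classical

noncomputable section

namespace Pool.Agent.Q17.RR

open Pool.Agent.H254R3.IN hiding NN
open Pool.Agent.Y63.KR Pool.Agent.Q17.WR Pool.Agent.Q17.DC Pool.Agent.Q17.AM Pool.Agent.Q17.OS
open Pool.Agent.Q17.DM Pool.Agent.Q17.RB Pool.Agent.Q111.OS Pool.Agent.Q66.RB Pool.Agent.Q275.DM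

lemma dw_eq {G : Type} [Group G] {r : ℕ} [Fact r.Prime] (D : Subgroup G) :
    Dw r D = Da (Cy r) D := by
  ext x
  exact Iff.rfl

/-- the step for the valuation -/
lemma val_step {r : ℕ} (hr : r.Prime) {S S' : ℤ} (h : (r : ℤ) * S' = S ^ r + ((r : ℤ) ^ 2 - 1) * S)
    {n : ℕ} (h1 : (r : ℤ) ^ (n + 1) ∣ S) (h2 : ¬ (r : ℤ) ^ (n + 2) ∣ S) :
    (r : ℤ) ^ n ∣ S' ∧ ¬ (r : ℤ) ^ (n + 1) ∣ S' := by
  have hr0 : (r : ℤ) ≠ 0 := by exact_mod_cast hr.ne_zero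
  have hr2 : 2 ≤ r := hr.two_le
  have h3 : (r : ℤ) ^ (n + 2) ∣ S ^ r := by
    have h4 : ((r : ℤ) ^ (n + 1)) ^ r ∣ S ^ r := pow_dvd_pow_of_dvd h1 r
    refine dvd_trans ?_ h4
    rw [← pow_mul]
    refine pow_dvd_pow _ ?_
    nlinarith
  refine ⟨?_, fun h4 => h2 ?_⟩
  · have h4 : (r : ℤ) ^ (n + 1) ∣ (r : ℤ) * S' := by
      rw [h]
      refine dvd_add (dvd_trans (pow_dvd_pow _ (by omega)) h3) (h1.mul_left _)
    rw [pow_succ'] at h4
    exact (mul_dvd_mul_iff_left hr0).mp h4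
  · have h5 : (r : ℤ) ^ (n + 2) ∣ (r : ℤ) * S' := by
      rw [pow_succ' _ (n + 1)]
      exact mul_dvd_mul_left _ h4
    rw [h] at h5
    have h6 : (r : ℤ) ^ (n + 2) ∣ ((r : ℤ) ^ 2 - 1) * S := (dvd_add_right h3).mp h5
    have h7 : (r : ℤ) ^ (n + 2) ∣ (r : ℤ) ^ 2 * S := by
      rw [add_comm n 2, pow_add]
      exact mul_dvd_mul_left _ (dvd_trans (pow_dvd_pow _ (Nat.le_succ n)) h1)
    have h8 : S = (r : ℤ) ^ 2 * S - ((r : ℤ) ^ 2 - 1) * S := by ring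
    rw [h8]
    exact dvd_sub h7 h6

theorem descent {p r : ℕ} [hp : Fact p.Prime] [hr : Fact r.Prime] (hpr : p ≠ r)
    {O : ValuationSubring ℂ} (hO : (p : ℂ) ∈ O.nonunits)
    {C : ∀ (G : Type) [Group G], Subgroup G → Prop} (hC : ClR p C) (n : ℕ) :
    ∀ (G : Type) [Group G] [Fintype G] (B : Set (G → ℂ)) (D : Subgroup G), IsBlock O B →
    IsDefectGroup p O B D → D ≠ ⊥ → C G D → (r : ℤ) ^ n ∣ SK p O B ∅ →
    ¬ (r : ℤ) ^ (n + 1) ∣ SK p O B ∅ →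
    ∃ (G' : Type) (_ : Group G') (_ : Fintype G') (B' : Set (G' → ℂ)) (D' : Subgroup G'),
      IsBlock O B' ∧ IsDefectGroup p O B' D' ∧ D' ≠ ⊥ ∧ C G' D' ∧ ¬ (r : ℤ) ∣ SK p O B' ∅ := by
  induction n with
  | zero =>
    intro G _ _ B D hB hD hne hc _ h1
    rw [zero_add, pow_one] at h1
    exact ⟨G, inferInstance, inferInstance, B, D, hB, hD, hne, hc, h1⟩
  | succ n ih =>
    intro G _ _ B D hB hD hne hc h1 h2
    have hP : Pos O B := p_pos G p O hO B hB D hD hne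
    obtain ⟨e1, -, e2⟩ := p_blk G p r hpr O hO B hB hP
    have hfinW : Finite (Wc G r) := Finite.of_equiv _ SemidirectProduct.equivProd.symm
    have : Fintype (Wc G r) := Fintype.ofFinite _
    obtain ⟨h3, h4⟩ := val_step hr.out (sk_id p r hpr G O hO B hB hP) h1 h2
    exact ih (Wc G r) (LX (r := r) B) (Dw r D) e1 (e2 D hD) (dw_ne_bot hne)
      (by rw [dw_eq]; exact hC.wr G D r hc) h3 h4

theorem descent' {p r : ℕ} [hp : Fact p.Prime] [hr : Fact r.Prime] (hpr : p ≠ r)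
    {O : ValuationSubring ℂ} (hO : (p : ℂ) ∈ O.nonunits)
    {C : ∀ (G : Type) [Group G], Subgroup G → Prop} (hC : ClR p C)
    {G : Type} [Group G] [Fintype G] {B : Set (G → ℂ)} {D : Subgroup G} (hB : IsBlock O B)
    (hD : IsDefectGroup p O B D) (hne : D ≠ ⊥) (hc : C G D) (h : SK p O B ∅ ≠ 0) :
    ∃ (G' : Type) (_ : Group G') (_ : Fintype G') (B' : Set (G' → ℂ)) (D' : Subgroup G'),
      IsBlock O B' ∧ IsDefectGroup p O B' D' ∧ D' ≠ ⊥ ∧ C G' D' ∧ ¬ (r : ℤ) ∣ SK p O B' ∅ := by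
  have hfm : FiniteMultiplicity (r : ℤ) (SK p O B ∅) :=
    Int.finiteMultiplicity_iff.mpr ⟨by
      rw [Int.natAbs_natCast]
      exact hr.out.one_lt.ne', h⟩
  exact descent hpr hO hC (multiplicity (r : ℤ) (SK p O B ∅)) G B D hB hD hne hc
    (pow_multiplicity_dvd _ _) (hfm.not_pow_dvd_of_multiplicity_lt (Nat.lt_succ_self _))

end Pool.Agent.Q17.RR
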