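import Pool.Agent.Q17.RR.Stm
import Pool.Agent.Q18.K.Awc

/-!
# Statements of project RR, part 2: the `O`-form and the `F`-form of blocks

`F`-form: `Y63.NV` (`Defs.lean`: `IsBlock β` for `β : (Γ → F) → F`, `IsClassFun`, `centralValue`, `redC`,
`IsWt`; `Stm5.lean`: `numIrrInd`, `numDzBlock`, `KRB`) and `Q18.K` (`numQ`, `altQ`, `fixed_sum` in `Main`,
`exists_gen'` in `Cyc`, `rat_iff` and `uσ` in `Prat`, `rat_sum'`, `alt_bot`, `numQ_true` in `Awc`). The
predicates `IsIrr`, `IsIrrChar`, `IsIrreducibleCharacter` for characters have the same definition.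
-/

set_option autoImplicit false

open scoped Classical

noncomputable section

namespace Pool.Agent.Q17.RR

open Pool.Agent.H254R3.IN hiding NN
open Pool.Agent.Y63.KR Pool.Agent.Q17.WR Pool.Agent.Q17.DC Pool.Agent.Q17.AM Pool.Agent.Q17.OS
open Pool.Agent.Q17.DM Pool.Agent.Q17.RB Pool.Agent.Q111.OS
open Pool.Agent.Y63.NV (centralValue IsClassFun numDzBlock)
open Pool.Agent.Q18.K (altQ)

/-- the reductions modulo the maximal ideal of `O` and by `red` have the same kernel -/
def Mt {F : Type} [Field F] (O : ValuationSubring ℂ) (red : integralClosure ℤ ℂ →+* F) : Prop :=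
  ∀ a : integralClosure ℤ ℂ, (a : ℂ) ∈ O.nonunits ↔ red a = 0

/-- the block `B` in the `O`-form and the block `β` in the `F`-form correspond -/
structure Br {F : Type} [Field F] (O : ValuationSubring ℂ) (red : integralClosure ℤ ℂ →+* F)
    {Γ : Type} [Group Γ] (B : Set (Γ → ℂ)) (β : (Γ → F) → F) : Prop where
  mem : ∀ χ : Γ → ℂ, χ ∈ B ↔ IsIrr χ ∧ ∀ f : Γ → F, IsClassFun f → centralValue red χ f = β f
  ind : ∀ (H : Subgroup Γ) (ψ : H → ℂ), IsIrr ψ → (Ind O B Set.univ H ψ ↔
    ∀ f : Γ → F, IsClassFun f → centralValue red ψ (fun x => f x) = β f)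

/-- JOB BRO. A valuation ring for a given reduction. Proof. The kernel of `red` is a prime ideal of the
ring of algebraic integers which contains `p`, and it is maximal (the quotient is a domain and
integral over a field with `p` elements). There is a valuation ring `O` of `ℂ` which contains the ring
of algebraic integers and whose maximal ideal contains this kernel (`LocalSubring`,
`ValuationSubring.exists_le...`; the pool has such a ring in `Helper884.IC` or `H254R3.IN`: search for
`ValuationSubring ℂ` and `exists`); the contraction of its maximal ideal is then the kernel. -/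
def S_BRO : Prop := ∀ (p : ℕ) [Fact p.Prime] (F : Type) [Field F] [CharP F p]
  (red : integralClosure ℤ ℂ →+* F), ∃ O : ValuationSubring ℂ, (p : ℂ) ∈ O.nonunits ∧ Mt O red

/-- JOB BRF. A reduction for a given valuation ring: `F` is the residue field of `O`, of characteristic
`p` since `p` is in the maximal ideal, and algebraically closed: a monic polynomial over `F` lifts to a
monic polynomial over `O`, its roots in `ℂ` are integral over `O`, so in `O`. Algebraic integers are in
`O` (integrally closed). -/
def S_BRF : Prop := ∀ (p : ℕ) [Fact p.Prime] (O : ValuationSubring ℂ), (p : ℂ) ∈ O.nonunits →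
  ∃ (F : Type) (_ : Field F) (_ : IsAlgClosed F) (_ : CharP F p)
    (red : integralClosure ℤ ℂ →+* F), Mt O red

/-- JOB BRC. Corresponding blocks. Proof. (ind) For `f` the characteristic function of the class of `x`
`centralValue red χ f = red (omega χ x)`, and
`centralValue red ψ (f restricted to H) = red (∑ y ∈ H, y ~ x, ψ y / ψ 1)` (sum over the classes of `H` in
the class of `x`; all numbers are algebraic integers, `redC` is `red` on these); class functions are
linear combinations of these `f`, and `centralValue` is additive and homogeneous. So for `χ ∈ B` and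
`β = centralValue red χ` on class functions the two conditions agree by `Mt`. (1) `β f = centralValue red χ f`
for some `χ ∈ B`; it is a block in the `F`-form (multiplicativity of central characters; this is in the
pool: search `centralValue` and `IsBlock` in `Y63`, `Y171`, `Y824`, for example the proof of `S_KBLK`), and
members of `B` are characterised by congruence of `omega`. (2) It is enough to find an irreducible `χ`
with `centralValue red χ = β` on class functions (this may also be in the pool). Let `e_B` be the
reduction of `blockCoeff B` (values in `O`; work with the values in the residue field of `O`, or use that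
they are quotients of algebraic integers by an integer prime to `p`, so `red` extends to them). The sum
of the `e_B` over the blocks is the characteristic function of `1`, so `β e_B ≠ 0` for some `B`. For a
class sum `u` and `T = B` the element `∏ ψ ∈ B, (u - omega ψ u)` times `blockCoeff B` is `0`, so
`∏ ψ ∈ B, (β u - red (omega ψ u)) = 0`, and all `omega ψ u`, `ψ ∈ B`, have the same reduction. -/
def S_BRC : Prop := ∀ (p : ℕ) [Fact p.Prime] (F : Type) [Field F] [IsAlgClosed F] [CharP F p]
  (red : integralClosure ℤ ℂ →+* F) (O : ValuationSubring ℂ), (p : ℂ) ∈ O.nonunits → Mt O red →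
  ∀ (Γ : Type) [Group Γ] [Fintype Γ],
  (∀ B : Set (Γ → ℂ), IsBlock O B → ∃ β : (Γ → F) → F, Pool.Agent.Y63.NV.IsBlock β ∧
    Br O red B β) ∧
  ∀ β : (Γ → F) → F, Pool.Agent.Y63.NV.IsBlock β → ∃ B : Set (Γ → ℂ), IsBlock O B ∧ Br O red B β

/-- JOB BRS. The alternating sums. Proof. (1) Both sides times `|Γ|` are the sum over all chains `σ` of
nontrivial `p`-subgroups of `(-1) ^ |σ| * |H| * (number for H)`, `H` the stabiliser (`S_ALX`, that is
`t_ALX` in `Q224.OS.ALX`, for `altX`; `card_mul_gen` and its use in `Q18.K.Main`, `Q18.K.Awc` for `altQ`;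
`Ch p ⊤ ⊥` and the chains of `Q18.K` are the same), and the numbers are the same by `Br.ind`
(`numQ red β Q H` counts the irreducible `ψ` of `H` with `Q (Set.range ψ)` and the condition in
`Br.ind`). (2) If `Pos O B` no member of `B` is of defect zero: `(|Γ| : ℂ) / θ 1 ∈ O.nonunits` means that
`p` divides `|Γ| / θ 1` (`θ 1` divides `|Γ|`). Otherwise `B = {θ}` with `θ` of defect zero (`t_DZB` in
`Q14.AM.DZB` and the docstring of `S_DZB` in `Q17.AM.Stm3`). `IsWt p ⊥ χ` says that `χ` is irreducible of
`p`-defect zero. -/
def S_BRS : Prop := ∀ (p : ℕ) [Fact p.Prime] (F : Type) [Field F] [IsAlgClosed F] [CharP F p]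
  (red : integralClosure ℤ ℂ →+* F) (O : ValuationSubring ℂ), (p : ℂ) ∈ O.nonunits → Mt O red →
  ∀ (Γ : Type) [Group Γ] [Fintype Γ] (B : Set (Γ → ℂ)) (β : (Γ → F) → F), IsBlock O B →
  Pool.Agent.Y63.NV.IsBlock β → Br O red B β →
  (∀ K : Set (ℂ ≃+* ℂ), altQ p (⊥ : Subgroup Γ) red β (fun S => ∀ s ∈ K, ∀ a ∈ S, s a = a) =
    SK p O B K) ∧
  (numDzBlock p red β : ℤ) = if Pos O B then 0 else 1

/-- JOB RAS (`t_RAS : S_BRF → S_BRC → S_BRS → S_RAS`). The characters with bounded `p`-part of the
irrationality. Proof. Take `F`, `red` from `S_BRF` and `β` from `S_BRC`. Let `s` be the automorphism in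
`exists_gen'` (`Q18.K.Cyc`, `Γ` is an explicit or implicit argument). `fixed_sum` with `Z = ⊥` (the exponent
of `⊥` is `1`, and `ζ ^ (k * 1) = 1` implies `ζ ^ (k * p ^ b) = 1`; see `rat_sum'` in `Q18.K.Awc`) gives
`altQ (True) = altQ (∀ a ∈ S, s a = a)`. An irreducible character `χ` of a subgroup fixed by `s` is fixed by
every `t` in the set below: the action of `t` on the `|Γ|`-th roots of unity is a power of the action of
`s` (`uσ Γ t ∈ Subgroup.zpowers (uσ Γ s)`), see the proof of `rat_iff`; `s` itself is in the set. Now use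
`altQ_congr` and `S_BRS` (1) for `K = ∅` and for this set. -/
def S_RAS : Prop := ∀ (p b : ℕ) [Fact p.Prime], p ≠ 2 ∨ 2 ≤ b → ∀ O : ValuationSubring ℂ,
  (p : ℂ) ∈ O.nonunits → ∀ (Γ : Type) [Group Γ] [Fintype Γ] (B : Set (Γ → ℂ)), IsBlock O B →
  SK p O B {t | ∀ ζ : ℂ, ζ ^ Nat.card Γ = 1 → (∃ k : ℕ, ¬ p ∣ k ∧ ζ ^ (k * p ^ b) = 1) → t ζ = ζ} =
    SK p O B ∅

end Pool.Agent.Q17.RR
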