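import Pool.Agent.Q17.RR.Lad
import Pool.Agent.Q17.RR.Stm2
import Pool.Agent.Q17.FT.Fin

/-!
# Project RR: Galois-stable blocks with prescribed alternating sums
-/

set_option autoImplicit false

open scoped Classical

noncomputable section

namespace Pool.Agent.Q17.RR

open Pool.Agent.H254R3.IN hiding NN
open Pool.Agent.Y63.KR Pool.Agent.Q17.WR Pool.Agent.Q17.DC Pool.Agent.Q17.AM Pool.Agent.Q17.OS
open Pool.Agent.Q17.DM Pool.Agent.Q17.RB Pool.Agent.Q111.OS Pool.Agent.Q66.RB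
open Pool.Agent.Q17.FT (exists_lin fix_mul)
open Pool.Agent.Q38.FT (block_single defect_single St_TB)

lemma ck_congr {Γ : Type} [Group Γ] {O : ValuationSubring ℂ} {B : Set (Γ → ℂ)} {X : Set Γ}
    {K K' : Set (ℂ ≃+* ℂ)} {H : Subgroup Γ}
    (h : ∀ ψ : H → ℂ, IsIrr ψ → ((∀ s ∈ K, ∀ g, s (ψ g) = ψ g) ↔ ∀ s ∈ K', ∀ g, s (ψ g) = ψ g)) :
    ck O B X K H = ck O B X K' H := by
  unfold ck
  refine Nat.card_congr (Equiv.subtypeEquivRight fun ψ => ?_)
  exact and_congr_right fun h1 => and_congr_right fun _ => h ψ h1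

lemma sk_congr {Γ : Type} [Group Γ] {p : ℕ} {O : ValuationSubring ℂ} {B : Set (Γ → ℂ)}
    {K K' : Set (ℂ ≃+* ℂ)}
    (h : ∀ (H : Subgroup Γ) (ψ : H → ℂ), IsIrr ψ →
      ((∀ s ∈ K, ∀ g, s (ψ g) = ψ g) ↔ ∀ s ∈ K', ∀ g, s (ψ g) = ψ g)) :
    SK p O B K = SK p O B K' := by
  unfold SK
  congr 1
  funext σ
  rw [ck_congr (h _)]

theorem twist (hT : S_TWK) (hR : S_RAS) {p b : ℕ} [hp : Fact p.Prime] (hb : p ≠ 2 ∨ 2 ≤ b)
    {O : ValuationSubring ℂ} (hO : (p : ℂ) ∈ O.nonunits) {G : Type} [Group G] [Fintype G]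
    {B : Set (G → ℂ)} {D : Subgroup G} (hB : IsBlock O B) (hD : IsDefectGroup p O B D)
    (hne : D ≠ ⊥) : ∃ (v : ℕ) (_ : NeZero v) (B₁ : Set (G × Multiplicative (ZMod v) → ℂ)),
      ¬ p ∣ v ∧ IsBlock O B₁ ∧
      IsDefectGroup p O B₁ (D.prod (⊥ : Subgroup (Multiplicative (ZMod v)))) ∧
      D.prod (⊥ : Subgroup (Multiplicative (ZMod v))) ≠ ⊥ ∧
      SK p O B₁ {s | s ∈ Kf (p ^ b) ∧ St s B₁} = SK p O B ∅ := by
  have hn : 0 < Nat.card G := Nat.card_pos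
  obtain ⟨v, hv⟩ : ∃ v, v = Nat.card G / p ^ (Nat.card G).factorization p := ⟨_, rfl⟩
  obtain ⟨a, ha⟩ : ∃ a, a = (Nat.card G).factorization p := ⟨_, rfl⟩
  have hcard : Nat.card G = v * p ^ a := by
    rw [hv, ha, mul_comm]
    exact (Nat.ordProj_mul_ordCompl_eq_self _ _).symm
  have hv0 : 0 < v := Nat.pos_of_ne_zero fun h => by rw [h, zero_mul] at hcard; omega
  have hpv : ¬ p ∣ v := by
    rw [hv]
    exact Nat.not_dvd_ordCompl hp.out hn.ne'
  have hcop : ∀ j : ℕ, Nat.Coprime v (p ^ j) := fun j =>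
    Nat.Coprime.pow_right j ((Nat.Prime.coprime_iff_not_dvd hp.out).mpr hpv).symm
  have hN : NeZero v := ⟨hv0.ne'⟩
  have hVc : Nat.card (Multiplicative (ZMod v)) = v := by
    rw [Nat.card_congr (Multiplicative.toAdd : Multiplicative (ZMod v) ≃ ZMod v), Nat.card_zmod]
  have hpV : ¬ p ∣ Nat.card (Multiplicative (ZMod v)) := by rw [hVc]; exact hpv
  obtain ⟨ψ, hψ⟩ := exists_lin v hv0
  have hψv : ∀ x, ((ψ x : ℂˣ) : ℂ) ^ v = 1 := by
    intro x
    have h1 : x ^ v = 1 := by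
      have h2 := pow_card_eq_one' (x := x)
      rwa [hVc] at h2
    rw [← Units.val_pow_eq_pow_val, ← map_pow, h1, map_one, Units.val_one]
  have hψi := Pool.Agent.Q18.CF.lin_irr ψ
  have hψB : IsBlock O {fun x => ((ψ x : ℂˣ) : ℂ)} := block_single hO hpV hψi
  have hψD := defect_single hO hpV hψi
  have hst := fun s : ℂ ≃+* ℂ => St_TB hψi hB.irr hB.nonempty s
  refine ⟨v, hN, TB B {fun x => ((ψ x : ℂˣ) : ℂ)}, hpv, block_TB hB hψB, defect_TB hB hψB hD hψD,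
    ?_, ?_⟩
  · intro h
    refine hne ((Subgroup.eq_bot_iff_forall D).mpr fun g hg => ?_)
    have h1 : ((g, 1) : G × Multiplicative (ZMod v)) ∈
        D.prod (⊥ : Subgroup (Multiplicative (ZMod v))) :=
      Subgroup.mem_prod.mpr ⟨hg, Subgroup.one_mem _⟩
    rw [h, Subgroup.mem_bot] at h1
    exact congrArg Prod.fst h1
  · have hK : ∀ s ∈ ({s | s ∈ Kf (p ^ b) ∧ St s (TB B {fun x => ((ψ x : ℂˣ) : ℂ)})} :
        Set (ℂ ≃+* ℂ)), ∀ x, s ((ψ x : ℂˣ) : ℂ) = ((ψ x : ℂˣ) : ℂ) := by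
      rintro s ⟨-, hs2⟩
      exact ((hst s).mp hs2).2
    rw [hT.1 p O hO G (Multiplicative (ZMod v)) B _ hB hψB, (hT.2 p O hO _ hpV _ hψi _ hK).2,
      mul_one, ← hR p b hb O hO G B hB]
    refine sk_congr fun H θ hθ => ⟨fun h t ht g => ?_, fun h s hs g => ?_⟩
    · -- an automorphism with the same action
      obtain ⟨s, hs1, hs2⟩ := Pool.Agent.Q92.FT.t_CRT (Nat.card G) (v * p ^ b) hn
        (Nat.mul_pos hv0 (pow_pos hp.out.pos b)) t (fun ζ hζ => by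
          obtain ⟨c, hc⟩ := Nat.gcd_dvd_left (Nat.card G) (v * p ^ b)
          obtain ⟨c', hc'⟩ := Nat.gcd_dvd_right (Nat.card G) (v * p ^ b)
          refine ht ζ ?_ ⟨v, hpv, ?_⟩
          · rw [hc, pow_mul, hζ, one_pow]
          · rw [hc', pow_mul, hζ, one_pow])
      have hsv : ∀ ζ : ℂ, ζ ^ v = 1 → s ζ = ζ := fun ζ hζ => hs2 ζ (by rw [pow_mul, hζ, one_pow])
      have hsK : s ∈ ({s | s ∈ Kf (p ^ b) ∧ St s (TB B {fun x => ((ψ x : ℂˣ) : ℂ)})} :
          Set (ℂ ≃+* ℂ)) := by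
        refine ⟨fun ζ hζ => hs2 ζ (by rw [mul_comm, pow_mul, hζ, one_pow]), (hst s).mpr
          ⟨?_, fun x => hsv _ (hψv x)⟩⟩
        exact Pool.Agent.Q150.FT.t_GCP G p O hO B hB s (fun ζ hζ => hsv ζ (by rw [hv]; exact hζ))
      have h1 := h s hsK g
      have h2 := p_gv.1 H θ hθ t s (fun ζ hζ => (hs1 ζ (by
        obtain ⟨c, hc⟩ := Subgroup.card_subgroup_dvd_card H
        rw [hc, pow_mul, hζ, one_pow])).symm) g
      rw [h2, h1]
    · refine h s (fun ζ hζ => ?_) g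
      rintro ⟨k, hk, hζk⟩
      have hsψ := hK s hs
      have h1 : orderOf ζ ∣ v * p ^ a := by
        rw [← hcard]
        exact orderOf_dvd_of_pow_eq_one hζ
      have h2 : orderOf ζ ∣ k * p ^ b := orderOf_dvd_of_pow_eq_one hζk
      have h3 : orderOf ζ ∣ v * p ^ b := by
        have h4 : orderOf ζ ∣ Nat.gcd (v * p ^ a) (v * (k * p ^ b)) :=
          Nat.dvd_gcd h1 (h2.mul_left v)
        rw [Nat.gcd_mul_left, Nat.Coprime.gcd_mul_left_cancel_right _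
          (Nat.Coprime.pow_right a ((Nat.Prime.coprime_iff_not_dvd hp.out).mpr hk).symm)] at h4
        exact h4.trans (mul_dvd_mul_left v (Nat.gcd_dvd_right _ _))
      refine fix_mul (hcop b) ?_ hs.1 (Nat.mul_pos hv0 (pow_pos hp.out.pos b))
        (orderOf_dvd_iff_pow_eq_one.mp h3)
      intro ζ hζ
      obtain ⟨x, hx⟩ := hψ ζ hζ
      rw [← hx]
      exact hsψ x

/-- a block which is stable under the automorphisms which fix the `p ^ b`-th roots of unity is stable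
under all automorphisms -/
lemma gst_of_kf {p b : ℕ} [hp : Fact p.Prime] {O : ValuationSubring ℂ} (hO : (p : ℂ) ∈ O.nonunits)
    {G : Type} [Group G] [Fintype G] {B : Set (G → ℂ)} (hB : IsBlock O B)
    (h : Kf (p ^ b) ≤ Stb B) : Gst B := by
  intro s
  have hn : 0 < Nat.card G := Nat.card_pos
  obtain ⟨v, hv⟩ : ∃ v, v = Nat.card G / p ^ (Nat.card G).factorization p := ⟨_, rfl⟩
  have hv0 : 0 < v := by
    rw [hv]
    exact Nat.ordCompl_pos p hn.ne'
  have hpv : ¬ p ∣ v := by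
    rw [hv]
    exact Nat.not_dvd_ordCompl hp.out hn.ne'
  obtain ⟨t, ht1, ht2⟩ := Pool.Agent.Q92.FT.t_CRT v (p ^ b) hv0 (pow_pos hp.out.pos b) s
    (fun ζ hζ => by
      have h2 : Nat.gcd v (p ^ b) = 1 :=
        Nat.Coprime.pow_right b ((Nat.Prime.coprime_iff_not_dvd hp.out).mpr hpv).symm
      rw [h2, pow_one] at hζ
      rw [hζ, map_one])
  have h1 : t ∈ Stb B := h ht2
  have h2 : t⁻¹ * s ∈ Stb B := by
    refine mem_stb'.mpr (Pool.Agent.Q150.FT.t_GCP G p O hO B hB _ fun ζ hζ => ?_)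
    change t.symm (s ζ) = ζ
    rw [← ht1 ζ (by rw [hv]; exact hζ), RingEquiv.symm_apply_apply]
  have h3 := (Stb B).mul_mem h1 h2
  rw [mul_inv_cancel_left] at h3
  exact mem_stb'.mp h3

/-- for every block there is a Galois-stable block such that the alternating sum of the numbers of all
characters for the first is the one of the numbers of the characters with values in the field of the
`p ^ b`-th roots of unity for the second -/
theorem stable (hW : S_WPK) (hS : S_STF) (hT : S_TWK) (hR : S_RAS) {p b : ℕ} [hp : Fact p.Prime]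
    (hb : p ≠ 2 ∨ 2 ≤ b) {O : ValuationSubring ℂ} (hO : (p : ℂ) ∈ O.nonunits)
    {C : ∀ (G : Type) [Group G], Subgroup G → Prop} (hC : ClR p C)
    {G : Type} [Group G] [Fintype G] {B : Set (G → ℂ)} {D : Subgroup G} (hB : IsBlock O B)
    (hD : IsDefectGroup p O B D) (hne : D ≠ ⊥) (hc : C G D) :
    ∃ (G' : Type) (_ : Group G') (_ : Fintype G') (B' : Set (G' → ℂ)) (D' : Subgroup G'),
      IsBlock O B' ∧ IsDefectGroup p O B' D' ∧ D' ≠ ⊥ ∧ C G' D' ∧ Gst B' ∧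
      SK p O B' (Kf (p ^ b)) = SK p O B ∅ := by
  obtain ⟨v, hv, B₁, hpv, h1, h2, h3, h4⟩ := twist hT hR hb hO hB hD hne
  obtain ⟨G', i1, i2, B', D', f1, f2, f3, f4, f5, f6⟩ := ladder hW hS hO hC (Kf (p ^ b)) _
    (G × Multiplicative (ZMod v)) B₁ _ h1 h2 h3 (hC.prod G D v hpv hc) le_rfl
  exact ⟨G', i1, i2, B', D', f1, f2, f3, f4, gst_of_kf hO f1 f5, f6.trans h4⟩

end Pool.Agent.Q17.RR
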