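import Pool.Agent.Q17.RR.Asm2
import Pool.Agent.Q17.RR.Asm3

/-!
# Project RR: the reductions in the `O`-form
-/

set_option autoImplicit false

open scoped Classical

noncomputable section

namespace Pool.Agent.Q17.RR

open Pool.Agent.H254R3.IN hiding NN
open Pool.Agent.Y63.KR Pool.Agent.Q17.WR Pool.Agent.Q17.DC Pool.Agent.Q17.AM Pool.Agent.Q17.OS
open Pool.Agent.Q17.DM Pool.Agent.Q17.RB Pool.Agent.Q111.OS Pool.Agent.Q66.RB

lemma ne_bot_of_pos {p : ℕ} [hp : Fact p.Prime] {O : ValuationSubring ℂ}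
    (hO : (p : ℂ) ∈ O.nonunits) {G : Type} [Group G] [Fintype G] {B : Set (G → ℂ)}
    {D : Subgroup G} (hB : IsBlock O B) (hD : IsDefectGroup p O B D) (hP : Pos O B) : D ≠ ⊥ := by
  rintro rfl
  obtain ⟨χ, hχ⟩ := hB.nonempty
  obtain ⟨n, hn0, hn⟩ := IsIrr.deg (hB.irr χ hχ)
  have h1 : n ∣ Nat.card G := Pool.Agent.Y63.AWC.deg_dvd (hB.irr χ hχ) hn.symm
  obtain ⟨k, hk⟩ := h1
  have h2 := p_ht G p O hO B ⊥ hB hD χ hχ n hn
  rw [Subgroup.index_bot, hk] at h2
  have hk0 : k ≠ 0 := by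
    rintro rfl
    rw [mul_zero] at hk
    exact (Nat.card_pos (α := G)).ne' hk
  rw [Nat.factorization_mul hn0.ne' hk0] at h2
  have h3 : k.factorization p = 0 := by
    change n.factorization p + k.factorization p ≤ n.factorization p at h2
    omega
  have h4 : ¬ p ∣ k := by
    intro h5
    have := hp.out.factorization_pos_of_dvd hk0 h5
    omega
  have h5 := hP χ hχ
  have h6 : (Nat.card G : ℂ) / χ 1 = (k : ℂ) := by
    have hn0' : (n : ℂ) ≠ 0 := by exact_mod_cast hn0.ne'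
    rw [← hn, hk, Nat.cast_mul, mul_div_cancel_left₀ _ hn0']
  rw [h6] at h5
  exact h4 ((red_nat_eq_zero_iff hO k).mp ((red_eq_zero_iff (natCast_mem O k)).mpr h5))

/-- no nontrivial normal `p`-subgroup -/
def NN1 (p : ℕ) (G : Type) [Group G] : Prop := ∀ Q : Subgroup G, Q.Normal → IsPGroup p Q → Q = ⊥

lemma nn1_prod {p : ℕ} [hp : Fact p.Prime] {G : Type} [Group G] (h : NN1 p G) {v : ℕ} [NeZero v]
    (hv : ¬ p ∣ v) : NN1 p (G × Multiplicative (ZMod v)) := by
  intro Q hQ hpQ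
  have h1 : ∀ x ∈ Q, x.2 = 1 := by
    intro x hx
    obtain ⟨k, hk⟩ := hpQ ⟨x, hx⟩
    have hk' : x ^ (p ^ k) = 1 := congrArg Subtype.val hk
    have h2 : x.2 ^ (p ^ k) = 1 := congrArg Prod.snd hk'
    have h3 : x.2 ^ v = 1 := by
      have h4 : Nat.card (Multiplicative (ZMod v)) = v := by
        rw [Nat.card_congr (Multiplicative.toAdd : Multiplicative (ZMod v) ≃ ZMod v),
          Nat.card_zmod]
      have h5 := pow_card_eq_one' (x := x.2)
      rwa [h4] at h5
    have h4 : Nat.Coprime (p ^ k) v := Nat.Coprime.pow_left k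
      ((Nat.Prime.coprime_iff_not_dvd hp.out).mpr hv)
    have h5 : orderOf x.2 ∣ 1 := by
      rw [← h4]
      exact Nat.dvd_gcd (orderOf_dvd_of_pow_eq_one h2) (orderOf_dvd_of_pow_eq_one h3)
    exact orderOf_eq_one_iff.mp (Nat.dvd_one.mp h5)
  have h2 : Q.map (MonoidHom.fst G (Multiplicative (ZMod v))) = ⊥ :=
    h _ (hQ.map _ Prod.fst_surjective) (hpQ.map _)
  rw [eq_bot_iff]
  intro x hx
  rw [Subgroup.mem_bot]
  have h3 : x.1 ∈ Q.map (MonoidHom.fst G (Multiplicative (ZMod v))) := ⟨x, hx, rfl⟩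
  rw [h2, Subgroup.mem_bot] at h3
  exact Prod.ext h3 (h1 x hx)

/-- an element of the base group with one nontrivial component -/
def one1 {G : Type} [Group G] {q : ℕ} [Fact q.Prime] (g : G) : Wc G q :=
  SemidirectProduct.inl (fun ω => if ω = 1 then g else 1)

theorem nn1_wc {p q : ℕ} [hp : Fact p.Prime] [hq : Fact q.Prime] {G : Type} [Group G] [Finite G]
    (h : NN1 p G) {g : G} (hg : g ≠ 1) : NN1 p (Wc G q) := by
  intro Q hQ hpQ
  have hmul : ∀ u v : Wc G q, ∀ ω, (u * v).left ω = u.left ω * v.left (u.right⁻¹ * ω) :=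
    fun u v ω => rfl
  -- the components of the intersection with the base group
  have h2 : ∀ ω : Cy q, cmp ω Q = ⊥ := by
    intro ω
    refine h _ ⟨fun g hg a => ?_⟩ fun g => ?_
    · obtain ⟨y, hy, hy1, rfl⟩ := hg
      have h3 := hQ.conj_mem y hy (SemidirectProduct.inl (fun _ => a))
      have h6 : ((SemidirectProduct.inl (fun _ => a) : Wc G q) * y *
          (SemidirectProduct.inl (fun _ => a) : Wc G q)⁻¹).right = 1 := by
        rw [SemidirectProduct.mul_right, SemidirectProduct.mul_right, hy1,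
          SemidirectProduct.inv_right, SemidirectProduct.right_inl]
        simp
      refine ⟨_, h3, h6, ?_⟩
      change ((((SemidirectProduct.inl (fun _ => a) : Wc G q) * y) *
        (SemidirectProduct.inl (fun _ => a) : Wc G q)⁻¹).left ω) = a * y.left ω * a⁻¹
      have h5 : (SemidirectProduct.inl (fun _ => a) : Wc G q).right⁻¹ * ω = ω := by
        change (1 : Cy q)⁻¹ * ω = ω
        rw [inv_one, one_mul]
      rw [hmul, hmul, ← map_inv, h5]
      rfl
    · obtain ⟨g, y, hy, hy1, rfl⟩ := g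
      obtain ⟨k, hk⟩ := hpQ ⟨y, hy⟩
      have hk' : y ^ (p ^ k) = 1 := congrArg Subtype.val hk
      refine ⟨k, Subtype.ext ?_⟩
      change (y.left ω) ^ (p ^ k) = 1
      have h5 : ∀ n : ℕ, (y ^ n).right = 1 ∧ (y ^ n).left ω = (y.left ω) ^ n := by
        intro n
        induction n with
        | zero => exact ⟨rfl, by rw [pow_zero, pow_zero]; rfl⟩
        | succ n ih =>
            refine ⟨by rw [pow_succ, SemidirectProduct.mul_right, ih.1, hy1, one_mul], ?_⟩
            have h6 : (y ^ n * y).left ω = (y ^ n).left ω * y.left ((y ^ n).right⁻¹ * ω) := rfl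
            rw [pow_succ, h6, ih.1, ih.2, inv_one, one_mul, pow_succ]
      rw [← (h5 _).2, hk']
      rfl
  have h3 : ∀ x ∈ Q, x.right = 1 → x = 1 := by
    intro x hx hx1
    refine SemidirectProduct.ext (funext fun ω => ?_) hx1
    have h3 : x.left ω ∈ cmp ω Q := ⟨x, hx, hx1, rfl⟩
    rw [h2 ω, Subgroup.mem_bot] at h3
    exact h3
  rw [eq_bot_iff]
  intro x hx
  rw [Subgroup.mem_bot]
  refine h3 x hx ?_
  by_contra hx1
  -- the commutator with an element of the base group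
  have h4 : x * (one1 g : Wc G q) * x⁻¹ * (one1 g : Wc G q)⁻¹ ∈ Q := by
    have h5 := hQ.conj_mem x⁻¹ (Q.inv_mem hx) (one1 g : Wc G q)
    have h6 := Q.mul_mem hx h5
    have h7 : x * ((one1 g : Wc G q) * x⁻¹ * (one1 g : Wc G q)⁻¹) =
        x * (one1 g : Wc G q) * x⁻¹ * (one1 g : Wc G q)⁻¹ := by group
    rwa [h7] at h6
  have h5 : (x * (one1 g : Wc G q) * x⁻¹ * (one1 g : Wc G q)⁻¹).right = 1 := by
    rw [SemidirectProduct.mul_right, SemidirectProduct.mul_right, SemidirectProduct.mul_right,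
      SemidirectProduct.inv_right, SemidirectProduct.inv_right]
    change x.right * 1 * x.right⁻¹ * (1 : Cy q)⁻¹ = 1
    simp
  have h6 := h3 _ h4 h5
  have h7 : x * (one1 g : Wc G q) = (one1 g : Wc G q) * x := by
    rw [mul_inv_eq_one, mul_inv_eq_iff_eq_mul] at h6
    exact h6
  have h8 := congrFun (congrArg SemidirectProduct.left h7) 1
  rw [hmul, hmul] at h8
  have h9 : (one1 g : Wc G q).left = fun ω => if ω = 1 then g else 1 := rfl
  have h10 : (one1 g : Wc G q).right = 1 := rfl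
  rw [h9, h10] at h8
  simp only [mul_one, inv_one, if_true] at h8
  rw [if_neg (by rw [inv_eq_one]; exact hx1), mul_one] at h8
  exact hg (mul_eq_right.mp h8.symm)

/-- the reduction to rational-valued characters of Galois-stable blocks -/
theorem main_O (hW : S_WPK) (hS : S_STF) (hT : S_TWK) (hR : S_RAS) {p r b : ℕ}
    [hp : Fact p.Prime] [hr : Fact r.Prime] (hpr : p ≠ r) (hb : p ≠ 2 ∨ 2 ≤ b)
    {O : ValuationSubring ℂ} (hO : (p : ℂ) ∈ O.nonunits)
    {C : ∀ (G : Type) [Group G], Subgroup G → Prop} (hC : ClR p C)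
    (h : ∀ (G : Type) [Group G] [Fintype G] (B : Set (G → ℂ)) (D : Subgroup G), IsBlock O B →
      IsDefectGroup p O B D → D ≠ ⊥ → C G D → Gst B → (r : ℤ) ∣ SK p O B (Kf (p ^ b)))
    {G : Type} [Group G] [Fintype G] {B : Set (G → ℂ)} {D : Subgroup G} (hB : IsBlock O B)
    (hD : IsDefectGroup p O B D) (hne : D ≠ ⊥) (hc : C G D) : SK p O B ∅ = 0 := by
  by_contra h0
  obtain ⟨G₁, _, _, B₁, D₁, h1, h2, h3, h4, h5⟩ := descent' hpr hO hC hB hD hne hc h0
  obtain ⟨G₂, _, _, B₂, D₂, e1, e2, e3, e4, e5, e6⟩ := stable hW hS hT hR hb hO hC h1 h2 h3 h4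
  rw [← e6] at h5
  exact h5 (h G₂ B₂ D₂ e1 e2 e3 e4 e5)

end Pool.Agent.Q17.RR
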