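import Pool.Agent.Q17.RR.Asm4

/-!
# Project RR: all characters of Galois-stable blocks
-/

set_option autoImplicit false

open scoped Classical

noncomputable section

namespace Pool.Agent.Q17.RR

open Pool.Agent.H254R3.IN hiding NN
open Pool.Agent.Y63.KR Pool.Agent.Q17.WR Pool.Agent.Q17.DC Pool.Agent.Q17.AM Pool.Agent.Q17.OS
open Pool.Agent.Q17.DM Pool.Agent.Q17.RB Pool.Agent.Q111.OS Pool.Agent.Q66.RB

/-- a class of pairs closed under wreath products -/
def ClW (C : ∀ (G : Type) [Group G], Subgroup G → Prop) : Prop :=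
  ∀ (G : Type) [Group G] [Fintype G] (D : Subgroup G) (q : ℕ) [Fact q.Prime],
    D ≠ ⊥ → C G D → C (Wc G q) (Da (Cy q) D)

lemma sk_im (hG : S_GCK) {p : ℕ} [Fact p.Prime] {O : ValuationSubring ℂ}
    (hO : (p : ℂ) ∈ O.nonunits) {G : Type} [Group G] [Fintype G] {B : Set (G → ℂ)}
    (hB : IsBlock O B) (s : ℂ ≃+* ℂ) (K : Set (ℂ ≃+* ℂ)) : SK p O (im s B) K = SK p O B K := by
  unfold SK
  congr 1
  funext σ
  rw [(hG G O s B (im s B) hB (im_block hO hB s) (chainStabilizer σ)).2.2.2 (mp_im s B) K]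

theorem ladder2 (hW : S_WPK) (hS : S_STF) (hG : S_GCK) {p : ℕ} [hp : Fact p.Prime]
    {O : ValuationSubring ℂ} (hO : (p : ℂ) ∈ O.nonunits)
    {C : ∀ (G : Type) [Group G], Subgroup G → Prop} (hC : ClW C) (N : ℕ) :
    ∀ (G : Type) [Group G] [Fintype G] (B : Set (G → ℂ))
    (D : Subgroup G), IsBlock O B → IsDefectGroup p O B D → D ≠ ⊥ → C G D →
    (Stb B).index ≤ N →
    ∃ (G' : Type) (_ : Group G') (_ : Fintype G') (B' : Set (G' → ℂ)) (D' : Subgroup G') (n : ℕ),
      IsBlock O B' ∧ IsDefectGroup p O B' D' ∧ D' ≠ ⊥ ∧ C G' D' ∧ Gst B' ∧ 1 ≤ n ∧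
      SK p O B' ∅ = SK p O B ∅ ^ n := by
  induction N with
  | zero =>
    intro G _ _ B D hB hD hne hc hi
    have h1 := stb_fin hO hB
    exact absurd (Nat.le_zero.mp hi) h1.index_ne_zero
  | succ N ih =>
    intro G _ _ B D hB hD hne hc hi
    by_cases hK : (⊤ : Subgroup (ℂ ≃+* ℂ)) ≤ Stb B
    · exact ⟨G, inferInstance, inferInstance, B, D, 1, hB, hD, hne, hc,
        fun s => mem_stb'.mp (hK (Subgroup.mem_top s)), le_refl _, by rw [pow_one]⟩
    · have hfin := stb_fin hO hB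
      have hnor := stb_normal (B := B) hB.irr
      obtain ⟨q, hq, s, -, hsq, hsn⟩ := exists_step hfin hnor hK
      have hF : Fam p q O D (bet q s B) :=
        ⟨fun ω => im_block hO hB _, fun ω => im_dg hO hB hD _, bet_inj hsq hsn⟩
      have hmv := mv_kb (K := ⊤) hB.irr (Subgroup.mem_top s) hsq
      have hN : NeZero q := ⟨hq.out.ne_zero⟩
      have h1 := (hW p q G O hO D (bet q s B) hF ∅).1 fun s hs => absurd hs (Set.notMem_empty s)
      have hst := hS p q G O hO D (bet q s B) hF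
      have h2 : ∀ t, t ∈ Stb (FX (bet q s B)) ↔
          t ∈ Kb (((⊤ : Subgroup (ℂ ≃+* ℂ))) : Set (ℂ ≃+* ℂ)) s B := by
        intro t
        rw [mem_stb', hst t]
        constructor
        · rintro ⟨b, hb⟩
          have h3 := im_of_mp (hb 1)
          rw [mul_one, bet_one] at h3
          exact ⟨Subgroup.mem_top t, _, h3⟩
        · intro h3
          exact hmv.mv t h3
      obtain ⟨e1, e2, -⟩ := p_fxb G (Cy q) p O hO (bet q s B) hF.blk hF.inj D hF.dfg
      have hfinW : Finite (Wc G q) := Finite.of_equiv _ SemidirectProduct.equivProd.symm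
      have : Fintype (Wc G q) := Fintype.ofFinite _
      have hfin2 := stb_fin hO e1
      have hle : Stb B ≤ Stb (FX (bet q s B)) := by
        intro t ht
        refine (h2 t).mpr ⟨Subgroup.mem_top t, 0, ?_⟩
        rw [pow_zero, im_one]
        exact ht
      have hlt : (Stb (FX (bet q s B))).index < (Stb B).index := by
        rw [← Subgroup.relIndex_mul_index hle]
        have h5 : 1 < (Stb B).relIndex (Stb (FX (bet q s B))) := by
          have h6 : (Stb B).relIndex (Stb (FX (bet q s B))) ≠ 1 := by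
            rw [Ne, Subgroup.relIndex_eq_one]
            intro h7
            have h8 : s ∈ Stb B := h7 ((h2 s).mpr ⟨Subgroup.mem_top s, 1, by rw [pow_one]⟩)
            have h9 := hsn 1 (by rw [pow_one]; exact h8)
            exact hq.out.one_lt.ne' (Nat.dvd_one.mp h9)
          have h7 := rel_ne hfin (Stb (FX (bet q s B)))
          omega
        exact lt_mul_of_one_lt_left (Nat.pos_of_ne_zero hfin2.index_ne_zero) h5
      obtain ⟨G', i1, i2, B', D', n, f1, f2, f3, f4, f5, f6, f7⟩ := ih (Wc G q)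
        (FX (bet q s B)) (Da (Cy q) D) e1 e2 (da_ne_bot hne) (hC G D q hne hc) (by omega)
      refine ⟨G', i1, i2, B', D', q * n, f1, f2, f3, f4, f5,
        Nat.mul_pos hq.out.pos f6, ?_⟩
      have h4 : ∀ ω : Cy q, SK p O (bet q s B ω) ∅ = SK p O B ∅ := fun ω => sk_im hG hO hB _ ∅
      rw [f7, h1, Finset.prod_congr rfl (fun ω _ => h4 ω), Finset.prod_const, Finset.card_univ,
        ← pow_mul]
      congr 2
      rw [← Nat.card_eq_fintype_card,
        Nat.card_congr (Multiplicative.toAdd : Cy q ≃ ZMod q), Nat.card_zmod]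

/-- the descent for the weaker closure property -/
theorem descent2 {p r : ℕ} [hp : Fact p.Prime] [hr : Fact r.Prime] (hpr : p ≠ r)
    {O : ValuationSubring ℂ} (hO : (p : ℂ) ∈ O.nonunits)
    {C : ∀ (G : Type) [Group G], Subgroup G → Prop} (hC : ClW C) (n : ℕ) :
    ∀ (G : Type) [Group G] [Fintype G] (B : Set (G → ℂ)) (D : Subgroup G), IsBlock O B →
    IsDefectGroup p O B D → D ≠ ⊥ → C G D → (r : ℤ) ^ n ∣ SK p O B ∅ →
    ¬ (r : ℤ) ^ (n + 1) ∣ SK p O B ∅ →
    ∃ (G' : Type) (_ : Group G') (_ : Fintype G') (B' : Set (G' → ℂ)) (D' : Subgroup G'),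
      IsBlock O B' ∧ IsDefectGroup p O B' D' ∧ D' ≠ ⊥ ∧ C G' D' ∧ ¬ (r : ℤ) ∣ SK p O B' ∅ := by
  induction n with
  | zero =>
    intro G _ _ B D hB hD hne hc _ h1
    rw [zero_add, pow_one] at h1
    exact ⟨G, inferInstance, inferInstance, B, D, hB, hD, hne, hc, h1⟩
  | succ n ih =>
    intro G _ _ B D hB hD hne hc h1 h2
    have hP : Pos O B := p_pos G p O hO B hB D hD hne
    obtain ⟨e1, -, e2⟩ := p_blk G p r hpr O hO B hB hP
    have hfinW : Finite (Wc G r) := Finite.of_equiv _ SemidirectProduct.equivProd.symm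
    have : Fintype (Wc G r) := Fintype.ofFinite _
    obtain ⟨h3, h4⟩ := val_step hr.out (sk_id p r hpr G O hO B hB hP) h1 h2
    exact ih (Wc G r) (LX (r := r) B) (Dw r D) e1 (e2 D hD) (dw_ne_bot hne)
      (by rw [dw_eq]; exact hC G D r hne hc) h3 h4

/-- the reduction to all characters of Galois-stable blocks -/
theorem main_A (hW : S_WPK) (hS : S_STF) (hG : S_GCK) {p r : ℕ} [hp : Fact p.Prime]
    [hr : Fact r.Prime] (hpr : p ≠ r) {O : ValuationSubring ℂ} (hO : (p : ℂ) ∈ O.nonunits)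
    {C : ∀ (G : Type) [Group G], Subgroup G → Prop} (hC : ClW C)
    (h : ∀ (G : Type) [Group G] [Fintype G] (B : Set (G → ℂ)) (D : Subgroup G), IsBlock O B →
      IsDefectGroup p O B D → D ≠ ⊥ → C G D → Gst B → (r : ℤ) ∣ SK p O B ∅)
    {G : Type} [Group G] [Fintype G] {B : Set (G → ℂ)} {D : Subgroup G} (hB : IsBlock O B)
    (hD : IsDefectGroup p O B D) (hne : D ≠ ⊥) (hc : C G D) : SK p O B ∅ = 0 := by
  by_contra h0
  have hfm : FiniteMultiplicity (r : ℤ) (SK p O B ∅) :=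
    Int.finiteMultiplicity_iff.mpr ⟨by
      rw [Int.natAbs_natCast]
      exact hr.out.one_lt.ne', h0⟩
  obtain ⟨G₁, _, _, B₁, D₁, h1, h2, h3, h4, h5⟩ := descent2 hpr hO hC
    (multiplicity (r : ℤ) (SK p O B ∅)) G B D hB hD hne hc
    (pow_multiplicity_dvd _ _) (hfm.not_pow_dvd_of_multiplicity_lt (Nat.lt_succ_self _))
  obtain ⟨G₂, _, _, B₂, D₂, n, e1, e2, e3, e4, e5, e6, e7⟩ := ladder2 hW hS hG hO hC _ G₁ B₁ D₁
    h1 h2 h3 h4 le_rfl
  have h6 := h G₂ B₂ D₂ e1 e2 e3 e4 e5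
  rw [e7] at h6
  exact h5 (Int.Prime.dvd_pow' hr.out h6)

end Pool.Agent.Q17.RR
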