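import Pool.Agent.Q17.RR.Stm
import Pool.Agent.Q17.AM.Mgd
import Pool.Agent.Q66.RB.RatA

/-!
# Project RR: Galois conjugates of blocks
-/

set_option autoImplicit false

open scoped Classical

noncomputable section

namespace Pool.Agent.Q17.RR

open Pool.Agent.H254R3.IN hiding NN
open Pool.Agent.Y63.KR Pool.Agent.Q17.WR Pool.Agent.Q17.DC Pool.Agent.Q17.AM Pool.Agent.Q17.OS
open Pool.Agent.Q17.DM Pool.Agent.Q17.RB Pool.Agent.Q111.OS Pool.Agent.Q66.RB

/-- the image of the set `B` of characters under `s` -/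
def im {G : Type} (s : ℂ ≃+* ℂ) (B : Set (G → ℂ)) : Set (G → ℂ) :=
  {χ | (fun g => s⁻¹ (χ g)) ∈ B}

section

variable {G : Type} {B B' : Set (G → ℂ)}

lemma inv_app (s : ℂ ≃+* ℂ) (z : ℂ) : s⁻¹ (s z) = z := s.symm_apply_apply z

lemma app_inv (s : ℂ ≃+* ℂ) (z : ℂ) : s (s⁻¹ z) = z := s.apply_symm_apply z

lemma mp_im (s : ℂ ≃+* ℂ) (B : Set (G → ℂ)) : Mp s B (im s B) := by
  intro χ
  change χ ∈ B ↔ (fun g => s⁻¹ (s (χ g))) ∈ B
  simp only [inv_app]

lemma im_of_mp {s : ℂ ≃+* ℂ} (h : Mp s B B') : im s B = B' := by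
  ext χ
  change (fun g => s⁻¹ (χ g)) ∈ B ↔ χ ∈ B'
  rw [h]
  simp only [app_inv]

lemma mp_iff {s : ℂ ≃+* ℂ} : Mp s B B' ↔ im s B = B' :=
  ⟨im_of_mp, fun h => h ▸ mp_im s B⟩

lemma st_iff {s : ℂ ≃+* ℂ} : St s B ↔ im s B = B := mp_iff

lemma im_one (B : Set (G → ℂ)) : im (1 : ℂ ≃+* ℂ) B = B := by
  refine im_of_mp fun χ => ?_
  rfl

lemma im_mul (s t : ℂ ≃+* ℂ) (B : Set (G → ℂ)) : im (s * t) B = im s (im t B) := by
  refine im_of_mp fun χ => ?_
  rw [mp_im t B χ, mp_im s (im t B)]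
  rfl

lemma im_inj {s : ℂ ≃+* ℂ} (h : im s B = im s B') : B = B' := by
  have h1 := congrArg (im s⁻¹) h
  rwa [← im_mul, ← im_mul, inv_mul_cancel, im_one, im_one] at h1

/-- the stabiliser of `B` -/
def Stb (B : Set (G → ℂ)) : Subgroup (ℂ ≃+* ℂ) where
  carrier := {s | im s B = B}
  one_mem' := im_one B
  mul_mem' := by
    intro s t hs ht
    change im (s * t) B = B
    rw [im_mul, show im t B = B from ht, show im s B = B from hs]
  inv_mem' := by
    intro s hs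
    change im s⁻¹ B = B
    refine im_inj (s := s) ?_
    rw [← im_mul, mul_inv_cancel, im_one]
    exact (show im s B = B from hs).symm

lemma mem_stb {s : ℂ ≃+* ℂ} : s ∈ Stb B ↔ im s B = B := Iff.rfl

lemma mem_stb' {s : ℂ ≃+* ℂ} : s ∈ Stb B ↔ St s B := st_iff.symm

/-- the automorphisms which fix the `n`-th roots of unity -/
def Kf (n : ℕ) : Subgroup (ℂ ≃+* ℂ) where
  carrier := {s | ∀ ζ : ℂ, ζ ^ n = 1 → s ζ = ζ}
  one_mem' := fun ζ _ => rfl
  mul_mem' := by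
    intro s t hs ht ζ hζ
    change s (t ζ) = ζ
    rw [ht ζ hζ, hs ζ hζ]
  inv_mem' := by
    intro s hs ζ hζ
    change s.symm ζ = ζ
    rw [RingEquiv.symm_apply_eq, hs ζ hζ]

lemma mem_kf {n : ℕ} {s : ℂ ≃+* ℂ} : s ∈ Kf n ↔ ∀ ζ : ℂ, ζ ^ n = 1 → s ζ = ζ := Iff.rfl

end

section

variable {G : Type} [Group G] [Fintype G] {B : Set (G → ℂ)}

lemma im_comm (h : ∀ χ ∈ B, IsIrr χ) (s t : ℂ ≃+* ℂ) : im s (im t B) = im t (im s B) := by
  rw [← im_mul, ← im_mul]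
  refine im_of_mp fun χ => ?_
  have h2 : ∀ χ ∈ B, (fun g => (t * s) (χ g)) = fun g => (s * t) (χ g) := by
    intro χ hχ
    funext g
    exact gal_comm (h χ hχ) t s g
  constructor
  · intro hχ
    have h3 := (mp_im (t * s) B χ).mp hχ
    rwa [h2 χ hχ] at h3
  · intro h3
    -- `χ = (t s)⁻¹ θ'` with `θ'` in the image
    have h4 : (fun g => (t * s)⁻¹ ((s * t) (χ g))) ∈ B := h3
    have h5 := h2 _ h4
    have h6 : (fun g => (s * t) (χ g)) =
        fun g => (s * t) ((t * s)⁻¹ ((s * t) (χ g))) := by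
      rw [← h5]
      funext g
      exact (app_inv (t * s) _).symm
    have h7 : χ = fun g => (t * s)⁻¹ ((s * t) (χ g)) := by
      funext g
      exact (s * t).injective (congrFun h6 g)
    rw [h7]
    exact h4

lemma im_pow_add (s : ℂ ≃+* ℂ) (m n : ℕ) : im (s ^ (m + n)) B = im (s ^ m) (im (s ^ n) B) := by
  rw [pow_add, im_mul]

variable {p : ℕ} [Fact p.Prime] {O : ValuationSubring ℂ}

lemma im_gc (hO : (p : ℂ) ∈ O.nonunits) (hB : IsBlock O B) (s : ℂ ≃+* ℂ) :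
    ∃ k : ℕ, Nat.Coprime k (Nat.card G) ∧ im s B = gc k B := by
  have hn0 : NeZero (Nat.card G) := ⟨Nat.card_pos.ne'⟩
  obtain ⟨u, hu⟩ := exists_unit (n := Nat.card G) s
  have hc : Nat.Coprime u.val.val (Nat.card G) := ZMod.val_coe_unit_coprime u
  have h1 := ((p_gcb G p O hO u.val.val hc).2 B hB).2.2 s hu
  refine ⟨u.val.val, hc, ?_⟩
  ext χ
  constructor
  · intro h
    refine ⟨_, h, funext fun g => ?_⟩
    have h2 := h1 _ h g
    rw [← h2]
    exact (app_inv s _).symm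
  · rintro ⟨θ, hθ, rfl⟩
    change (fun g => s⁻¹ (θ (g ^ u.val.val))) ∈ B
    have h3 : (fun g => s⁻¹ (θ (g ^ u.val.val))) = θ := by
      funext g
      rw [← h1 θ hθ g, inv_app]
    rw [h3]
    exact hθ

lemma im_block (hO : (p : ℂ) ∈ O.nonunits) (hB : IsBlock O B) (s : ℂ ≃+* ℂ) :
    IsBlock O (im s B) := by
  obtain ⟨k, hk, h⟩ := im_gc hO hB s
  rw [h]
  exact ((p_gcb G p O hO k hk).2 B hB).1

lemma im_dg (hO : (p : ℂ) ∈ O.nonunits) (hB : IsBlock O B) {D : Subgroup G}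
    (hD : IsDefectGroup p O B D) (s : ℂ ≃+* ℂ) : IsDefectGroup p O (im s B) D := by
  obtain ⟨k, hk, h⟩ := im_gc hO hB s
  rw [h]
  exact (((p_gcb G p O hO k hk).2 B hB).2.1 D hD).1

lemma stb_normal (h : ∀ χ ∈ B, IsIrr χ) : (Stb B).Normal := by
  refine ⟨fun t ht s => ?_⟩
  rw [mem_stb, im_mul, im_mul]
  have h1 : im t (im s⁻¹ B) = im s⁻¹ (im t B) := im_comm h t s⁻¹
  rw [h1, show im t B = B from ht, ← im_mul, mul_inv_cancel, im_one]

lemma stb_fin (hO : (p : ℂ) ∈ O.nonunits) (hB : IsBlock O B) : (Stb B).FiniteIndex := by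
  have hf : ({χ : G → ℂ | IsIrr χ}).Finite := Pool.Agent.Helper884.IC.irr_finite (G := G)
  have hf2 : ({T : Set (G → ℂ) | T ⊆ {χ : G → ℂ | IsIrr χ}}).Finite := hf.finite_subsets
  have h1 : Finite ((ℂ ≃+* ℂ) ⧸ Stb B) := by
    have hfin := hf2.to_subtype
    let F : (ℂ ≃+* ℂ) ⧸ Stb B → {T : Set (G → ℂ) | T ⊆ {χ : G → ℂ | IsIrr χ}} :=
      fun x => ⟨im x.out B, fun χ hχ => (im_block hO hB _).irr χ hχ⟩
    refine Finite.of_injective F fun x y hxy => ?_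
    have h2 : im x.out B = im y.out B := congrArg Subtype.val hxy
    rw [← QuotientGroup.out_eq' x, ← QuotientGroup.out_eq' y, QuotientGroup.eq, mem_stb, im_mul,
      ← h2, ← im_mul, inv_mul_cancel, im_one]
  exact Subgroup.finiteIndex_of_finite_quotient

end

end Pool.Agent.Q17.RR
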