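import Pool.Agent.Q17.RR.Gal

/-!
# Project RR: from a block to a block with a larger stabiliser
-/

set_option autoImplicit false

open scoped Classical

noncomputable section

namespace Pool.Agent.Q17.RR

open Pool.Agent.H254R3.IN hiding NN
open Pool.Agent.Y63.KR Pool.Agent.Q17.WR Pool.Agent.Q17.DC Pool.Agent.Q17.AM Pool.Agent.Q17.OS
open Pool.Agent.Q17.DM Pool.Agent.Q17.RB Pool.Agent.Q111.OS Pool.Agent.Q66.RB

section

variable {G : Type} {B : Set (G → ℂ)}

/-- the family of the conjugates of `B` under the powers of `s` -/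
def bet (q : ℕ) (s : ℂ ≃+* ℂ) (B : Set (G → ℂ)) : Cy q → Set (G → ℂ) :=
  fun a => im (s ^ (Multiplicative.toAdd a : ZMod q).val) B

lemma im_pow_stb {s : ℂ ≃+* ℂ} {n : ℕ} (h : s ^ n ∈ Stb B) (m : ℕ) : im (s ^ (n * m)) B = B := by
  rw [pow_mul]
  exact (Stb B).pow_mem h m

lemma im_pow_mod {s : ℂ ≃+* ℂ} {q : ℕ} (h : s ^ q ∈ Stb B) (n : ℕ) :
    im (s ^ n) B = im (s ^ (n % q)) B := by
  conv_lhs => rw [← Nat.mod_add_div n q]
  rw [pow_add, im_mul, im_pow_stb h]

lemma bet_ofNat {q : ℕ} [NeZero q] {s : ℂ ≃+* ℂ} (h : s ^ q ∈ Stb B) (n : ℕ) :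
    bet q s B (Multiplicative.ofAdd (n : ZMod q)) = im (s ^ n) B := by
  change im (s ^ ((n : ZMod q)).val) B = _
  rw [ZMod.val_natCast, ← im_pow_mod h]

lemma exists_nat {q : ℕ} [NeZero q] (a : Cy q) :
    ∃ n : ℕ, a = Multiplicative.ofAdd (n : ZMod q) :=
  ⟨(Multiplicative.toAdd a : ZMod q).val, by
    rw [ZMod.natCast_val, ZMod.cast_id]
    rfl⟩

end

/-- the members of `K` which map `B` to a conjugate of `B` under a power of `s` -/
def Kb {G : Type} (K : Set (ℂ ≃+* ℂ)) (s : ℂ ≃+* ℂ) (B : Set (G → ℂ)) : Set (ℂ ≃+* ℂ) :=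
  {t | t ∈ K ∧ ∃ n : ℕ, im t B = im (s ^ n) B}

section

variable {G : Type} [Group G] [Fintype G] {B : Set (G → ℂ)} {q : ℕ} [hq : Fact q.Prime]
  {s : ℂ ≃+* ℂ} {K : Subgroup (ℂ ≃+* ℂ)}

lemma mv_kb (hirr : ∀ χ ∈ B, IsIrr χ) (hs : s ∈ K) (h : s ^ q ∈ Stb B) :
    Mv (bet q s B) (Kb (K : Set (ℂ ≃+* ℂ)) s B) := by
  have hN : NeZero q := ⟨hq.out.ne_zero⟩
  have hmv : ∀ t : ℂ ≃+* ℂ, ∀ n : ℕ, im t B = im (s ^ n) B → ∀ ω : Cy q,
      Mp t (bet q s B ω) (bet q s B (Multiplicative.ofAdd (n : ZMod q) * ω)) := by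
    intro t n ht ω
    obtain ⟨m, rfl⟩ := exists_nat ω
    have h1 : (Multiplicative.ofAdd (n : ZMod q) * Multiplicative.ofAdd (m : ZMod q) : Cy q) =
        Multiplicative.ofAdd ((m + n : ℕ) : ZMod q) := by
      rw [← ofAdd_add, Nat.cast_add, add_comm]
    rw [h1, bet_ofNat h, bet_ofNat h, mp_iff, im_comm hirr, ht, im_pow_add]
  refine ⟨⟨K.one_mem, 0, by rw [pow_zero]⟩, ?_, ?_, ?_, ?_⟩
  · rintro t ⟨ht, n, hn⟩ u ⟨hu, m, hm⟩
    refine ⟨K.mul_mem ht hu, m + n, ?_⟩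
    rw [im_mul, hm, im_comm hirr, hn, im_pow_add]
  · rintro t ⟨ht, n, hn⟩
    refine ⟨K.inv_mem ht, n * q - n, ?_⟩
    refine im_inj (s := t) ?_
    rw [← im_mul, mul_inv_cancel, im_one, im_comm hirr, hn, ← im_pow_add]
    have h1 : n ≤ n * q := Nat.le_mul_of_pos_right n hq.out.pos
    rw [Nat.sub_add_cancel h1, mul_comm n q, im_pow_stb h]
  · rintro t ⟨ht, n, hn⟩
    exact ⟨_, hmv t n hn⟩
  · intro a
    obtain ⟨n, rfl⟩ := exists_nat a
    exact ⟨s ^ n, ⟨K.pow_mem hs n, n, rfl⟩, hmv _ n rfl⟩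

lemma bet_one : bet q s B 1 = B := by
  have hN : NeZero q := ⟨hq.out.ne_zero⟩
  change im (s ^ ((0 : ZMod q)).val) B = B
  rw [ZMod.val_zero, pow_zero, im_one]

lemma bet_inj (h : s ^ q ∈ Stb B) (h' : ∀ n : ℕ, s ^ n ∈ Stb B → q ∣ n) :
    Function.Injective (bet q s B) := by
  have hN : NeZero q := ⟨hq.out.ne_zero⟩
  have key : ∀ m n : ℕ, m ≤ n → im (s ^ m) B = im (s ^ n) B → (m : ZMod q) = (n : ZMod q) := by
    intro m n hmn h1
    rw [show s ^ n = s ^ m * s ^ (n - m) by rw [← pow_add, Nat.add_sub_cancel' hmn],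
      im_mul] at h1
    have h2 := h' (n - m) (im_inj h1).symm
    rw [eq_comm, ← sub_eq_zero, ← Nat.cast_sub hmn]
    exact (ZMod.natCast_eq_zero_iff _ _).mpr h2
  intro a b hab
  obtain ⟨m, rfl⟩ := exists_nat a
  obtain ⟨n, rfl⟩ := exists_nat b
  rw [bet_ofNat h, bet_ofNat h] at hab
  rcases le_total m n with h1 | h1
  · rw [key m n h1 hab]
  · rw [key n m h1 hab.symm]

/-- the data for one step: an element of prime order in the quotient of `K` by the stabiliser -/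
lemma exists_step (hst : (Stb B).FiniteIndex) (hn : (Stb B).Normal)
    (hK : ¬ K ≤ Stb B) : ∃ (q : ℕ) (_ : Fact q.Prime) (s : ℂ ≃+* ℂ), s ∈ K ∧ s ^ q ∈ Stb B ∧
      ∀ n : ℕ, s ^ n ∈ Stb B → q ∣ n := by
  have hfin : Finite (K ⧸ (Stb B).subgroupOf K) := by
    have : ((Stb B).subgroupOf K).FiniteIndex := inferInstance
    exact Subgroup.finite_quotient_of_finiteIndex
  have hcard : Nat.card (K ⧸ (Stb B).subgroupOf K) ≠ 1 := by
    intro h1
    refine hK fun t ht => ?_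
    have h2 := (Nat.card_eq_one_iff_unique.mp h1).1
    have h3 : (QuotientGroup.mk (⟨t, ht⟩ : K) : K ⧸ (Stb B).subgroupOf K) =
        QuotientGroup.mk (1 : K) := Subsingleton.elim _ _
    rw [QuotientGroup.eq, mul_one] at h3
    have h4 : (t : ℂ ≃+* ℂ)⁻¹ ∈ Stb B := h3
    exact (Stb B).inv_mem_iff.mp h4
  obtain ⟨q, hq, hqd⟩ := Nat.exists_prime_and_dvd hcard
  have hqF : Fact q.Prime := ⟨hq⟩
  obtain ⟨x, hx⟩ := exists_prime_orderOf_dvd_card' q hqd
  obtain ⟨⟨s, hs⟩, rfl⟩ := QuotientGroup.mk_surjective x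
  have key : ∀ n : ℕ, (QuotientGroup.mk (⟨s, hs⟩ : K) : K ⧸ (Stb B).subgroupOf K) ^ n = 1 ↔
      s ^ n ∈ Stb B := by
    intro n
    rw [← QuotientGroup.mk_pow, QuotientGroup.eq_one_iff]
    rfl
  refine ⟨q, hqF, s, hs, ?_, fun n hn' => ?_⟩
  · rw [← key, ← hx]
    exact pow_orderOf_eq_one _
  · rw [← hx]
    exact orderOf_dvd_of_pow_eq_one ((key n).mpr hn')

end

lemma rel_ne {S : Subgroup (ℂ ≃+* ℂ)} (h : S.FiniteIndex) (K : Subgroup (ℂ ≃+* ℂ)) :
    S.relIndex K ≠ 0 := by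
  have h1 : (S.subgroupOf K).FiniteIndex := inferInstance
  exact h1.index_ne_zero

/-- a class of pairs closed under the constructions used -/
structure ClR (p : ℕ) (C : ∀ (G : Type) [Group G], Subgroup G → Prop) : Prop where
  wr : ∀ (G : Type) [Group G] [Fintype G] (D : Subgroup G) (q : ℕ) [Fact q.Prime],
    C G D → C (Wc G q) (Da (Cy q) D)
  prod : ∀ (G : Type) [Group G] [Fintype G] (D : Subgroup G) (v : ℕ) [NeZero v], ¬ p ∣ v →
    C G D → C (G × Multiplicative (ZMod v)) (D.prod ⊥)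

lemma da_ne_bot {G A : Type} [Group G] [Group A] {D : Subgroup G} (h : D ≠ ⊥) :
    Da A D ≠ ⊥ := by
  intro h1
  refine h ((Subgroup.eq_bot_iff_forall D).mpr fun g hg => ?_)
  have h2 : (SemidirectProduct.inl (fun _ => g) : Wr G A A) ∈ Da A D := ⟨rfl, fun _ => hg⟩
  rw [h1, Subgroup.mem_bot] at h2
  exact congrArg (fun y : Wr G A A => y.left 1) h2

/-- the block `B` of `G` may be replaced by a block stable under `K` -/
theorem ladder (hW : S_WPK) (hS : S_STF) {p : ℕ} [hp : Fact p.Prime] {O : ValuationSubring ℂ}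
    (hO : (p : ℂ) ∈ O.nonunits) {C : ∀ (G : Type) [Group G], Subgroup G → Prop} (hC : ClR p C)
    (K : Subgroup (ℂ ≃+* ℂ)) (N : ℕ) : ∀ (G : Type) [Group G] [Fintype G] (B : Set (G → ℂ))
    (D : Subgroup G), IsBlock O B → IsDefectGroup p O B D → D ≠ ⊥ → C G D →
    (Stb B).relIndex K ≤ N →
    ∃ (G' : Type) (_ : Group G') (_ : Fintype G') (B' : Set (G' → ℂ)) (D' : Subgroup G'),
      IsBlock O B' ∧ IsDefectGroup p O B' D' ∧ D' ≠ ⊥ ∧ C G' D' ∧ K ≤ Stb B' ∧
      SK p O B' K = SK p O B {s | s ∈ K ∧ St s B} := by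
  induction N with
  | zero =>
    intro G _ _ B D hB hD hne hc hi
    have h1 := stb_fin hO hB
    exact absurd (Nat.le_zero.mp hi) (rel_ne h1 K)
  | succ N ih =>
    intro G _ _ B D hB hD hne hc hi
    by_cases hK : K ≤ Stb B
    · refine ⟨G, inferInstance, inferInstance, B, D, hB, hD, hne, hc, hK, ?_⟩
      congr 1
      ext t
      exact ⟨fun h => ⟨h, mem_stb'.mp (hK h)⟩, fun h => h.1⟩
    · have hfin := stb_fin hO hB
      have hnor := stb_normal (B := B) hB.irr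
      obtain ⟨q, hq, s, hs, hsq, hsn⟩ := exists_step hfin hnor hK
      have hF : Fam p q O D (bet q s B) :=
        ⟨fun ω => im_block hO hB _, fun ω => im_dg hO hB hD _, bet_inj hsq hsn⟩
      have hmv := mv_kb hB.irr hs hsq
      have hN : NeZero q := ⟨hq.out.ne_zero⟩
      have h1 := (hW p q G O hO D (bet q s B) hF (Kb (K : Set (ℂ ≃+* ℂ)) s B)).2 hmv
      have hst := hS p q G O hO D (bet q s B) hF
      -- the stabiliser of the new block in `K`
      have h2 : ∀ t ∈ K, t ∈ Stb (FX (bet q s B)) ↔ t ∈ Kb (K : Set (ℂ ≃+* ℂ)) s B := by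
        intro t ht
        rw [mem_stb', hst t]
        constructor
        · rintro ⟨b, hb⟩
          have h3 := im_of_mp (hb 1)
          rw [mul_one, bet_one] at h3
          exact ⟨ht, _, h3⟩
        · intro h3
          exact hmv.mv t h3
      obtain ⟨e1, e2, -⟩ := p_fxb G (Cy q) p O hO (bet q s B) hF.blk hF.inj D hF.dfg
      have hfinW : Finite (Wc G q) := Finite.of_equiv _ SemidirectProduct.equivProd.symm
      have : Fintype (Wc G q) := Fintype.ofFinite _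
      have hfin2 := stb_fin hO e1
      have hle : Stb B ⊓ K ≤ Stb (FX (bet q s B)) ⊓ K := by
        rintro t ⟨ht1, ht2⟩
        refine ⟨(h2 t ht2).mpr ⟨ht2, 0, ?_⟩, ht2⟩
        rw [pow_zero, im_one]
        exact ht1
      have hlt : (Stb (FX (bet q s B))).relIndex K < (Stb B).relIndex K := by
        rw [← Subgroup.inf_relIndex_right (Stb (FX (bet q s B))) K,
          ← Subgroup.inf_relIndex_right (Stb B) K,
          ← Subgroup.relIndex_mul_relIndex _ _ _ hle inf_le_right]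
        have h4 : (Stb (FX (bet q s B)) ⊓ K).relIndex K ≠ 0 := by
          rw [Subgroup.inf_relIndex_right]
          exact rel_ne hfin2 K
        have h5 : 1 < (Stb B ⊓ K).relIndex (Stb (FX (bet q s B)) ⊓ K) := by
          have h6 : (Stb B ⊓ K).relIndex (Stb (FX (bet q s B)) ⊓ K) ≠ 1 := by
            rw [Ne, Subgroup.relIndex_eq_one]
            intro h7
            have h8 : s ∈ Stb B ⊓ K := h7 ⟨(h2 s hs).mpr ⟨hs, 1, by rw [pow_one]⟩, hs⟩
            have h9 := hsn 1 (by rw [pow_one]; exact h8.1)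
            exact hq.out.one_lt.ne' (Nat.dvd_one.mp h9)
          have h7 : (Stb B ⊓ K).relIndex (Stb (FX (bet q s B)) ⊓ K) ≠ 0 := by
            intro h8
            have h9 : (Stb B).relIndex K ≠ 0 := rel_ne hfin K
            rw [← Subgroup.inf_relIndex_right (Stb B) K,
              ← Subgroup.relIndex_mul_relIndex _ _ _ hle inf_le_right, h8, zero_mul] at h9
            exact h9 rfl
          omega
        exact lt_mul_of_one_lt_left (Nat.pos_of_ne_zero h4) h5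
      obtain ⟨G', i1, i2, B', D', f1, f2, f3, f4, f5, f6⟩ := ih (Wc G q) (FX (bet q s B))
        (Da (Cy q) D) e1 e2 (da_ne_bot hne) (hC.wr G D q hc) (by omega)
      refine ⟨G', i1, i2, B', D', f1, f2, f3, f4, f5, ?_⟩
      rw [f6]
      have h3 : {t | t ∈ K ∧ St t (FX (bet q s B))} = Kb (K : Set (ℂ ≃+* ℂ)) s B := by
        ext t
        constructor
        · rintro ⟨ht, h4⟩
          exact (h2 t ht).mp (mem_stb'.mpr h4)
        · intro h4
          exact ⟨h4.1, mem_stb'.mp ((h2 t h4.1).mpr h4)⟩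
      rw [h3, h1, bet_one]
      congr 1
      ext t
      constructor
      · rintro ⟨h4, h5⟩
        exact ⟨h4.1, h5⟩
      · rintro ⟨h4, h5⟩
        exact ⟨⟨h4, 0, by rw [pow_zero, im_one]; exact st_iff.mp h5⟩, h5⟩

end Pool.Agent.Q17.RR
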