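import Pool.Agent.Q17.DM.Stm
import Pool.Agent.Q17.FT.Stm3

/-!
# Statements of project RR (alternating sums of numbers of rational characters)

Everything is in the `O`-form of blocks (`H254R3.IN`). `Wc G q = Wr G (Cy q) (Cy q)`, `M` is the base
group `{x | x.right = 1}`, `FX β` (in `Q17.RB.Stm`) the block of `Wc G q` over the different blocks `β ω`,
`nca f` its characters; `Pw`, `cmp`, `Lw`, `Bi` as in `Q17.DM.Stm`, `CS`, `WZ` in `Q17.OS.Stm`, `altX`, `Ch` in
`Q17.DC.Defs`, `FxS`, `St`, `Gst` in `Q17.RB`, `Q17.AM`. The prime `q` may be equal to `p`. Similar proofs: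
project DM (`Q92.DM.WZM`, `Q151.DM.WZN`, `Q14.DM.ASM`, `Q252.DM.CDM`, `Q14.DM.CDN`, `Q251.DM.CDC`,
`Q275.DM.DMR`).
-/

set_option autoImplicit false

open scoped Classical

noncomputable section

namespace Pool.Agent.Q17.RR

open Pool.Agent.H254R3.IN hiding NN
open Pool.Agent.Y63.KR Pool.Agent.Q17.WR Pool.Agent.Q17.DC Pool.Agent.Q17.AM Pool.Agent.Q17.OS
open Pool.Agent.Q17.DM Pool.Agent.Q17.RB Pool.Agent.Q111.OS

/-- the sum of the values of `ψ / ψ 1` at the elements of `H` conjugate to `x` in `Γ` is congruent to the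
central character of the block `B` of `Γ`, for all `x ∈ X` -/
def Ind {Γ : Type} [Group Γ] (O : ValuationSubring ℂ) (B : Set (Γ → ℂ)) (X : Set Γ) (H : Subgroup Γ)
    (ψ : H → ℂ) : Prop :=
  ∀ χ ∈ B, ∀ x ∈ X, omega χ x - ∑ᶠ y : {y : H // IsConj x (y : Γ)}, ψ y / ψ 1 ∈ O.nonunits

/-- the number of the irreducible characters of `H` with `Ind` and with values fixed by `K` -/
def ck {Γ : Type} [Group Γ] (O : ValuationSubring ℂ) (B : Set (Γ → ℂ)) (X : Set Γ)
    (K : Set (ℂ ≃+* ℂ)) (H : Subgroup Γ) : ℕ :=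
  Nat.card {ψ : H → ℂ // IsIrr ψ ∧ Ind O B X H ψ ∧ ∀ s ∈ K, ∀ g, s (ψ g) = ψ g}

/-- the alternating sum of these numbers over the chains of nontrivial `p`-subgroups -/
def SK {Γ : Type} [Group Γ] (p : ℕ) (O : ValuationSubring ℂ) (B : Set (Γ → ℂ))
    (K : Set (ℂ ≃+* ℂ)) : ℤ :=
  altX p ⊤ ⊥ (fun σ => (ck O B Set.univ K (chainStabilizer σ) : ℤ))

/-- different blocks `β ω` with the same defect group `D` -/
structure Fam {G : Type} [Group G] (p q : ℕ) (O : ValuationSubring ℂ) (D : Subgroup G)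
    (β : Cy q → Set (G → ℂ)) : Prop where
  blk : ∀ ω, IsBlock O (β ω)
  dfg : ∀ ω, IsDefectGroup p O (β ω) D
  inj : Function.Injective β

/-- `s` maps the set `B` of characters onto `B'` -/
def Mp {G : Type} (s : ℂ ≃+* ℂ) (B B' : Set (G → ℂ)) : Prop :=
  ∀ χ : G → ℂ, χ ∈ B ↔ (fun g => s (χ g)) ∈ B'

/-- the group `K` of automorphisms permutes the `β ω` by all translations -/
structure Mv {G : Type} {q : ℕ} (β : Cy q → Set (G → ℂ)) (K : Set (ℂ ≃+* ℂ)) : Prop where
  one : (1 : ℂ ≃+* ℂ) ∈ K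
  mul : ∀ s ∈ K, ∀ t ∈ K, s * t ∈ K
  inv : ∀ s ∈ K, s⁻¹ ∈ K
  mv : ∀ s ∈ K, ∃ a : Cy q, ∀ ω, Mp s (β ω) (β (a * ω))
  onto : ∀ a : Cy q, ∃ s ∈ K, ∀ ω, Mp s (β ω) (β (a * ω))

/-- JOB WZB1. The alternating sums for the `p`-subgroups of the base group, `p = q` allowed: the same
proof as `t_WZM` in `Q92.DM.WZM`; there `p ≠ r` is only used to see that the `p`-subgroups are in the
base group, here this is part of the definition of `WZ p M ⊥ K` (`le`). -/
def S_WZB1 : Prop := ∀ (p q : ℕ) [Fact p.Prime] [Fact q.Prime] (G : Type) [Group G] [Finite G]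
  (K : Subgroup (Wc G q)), (∀ x ∈ K, x.right = 1) →
  WZ p (Bs G (Cy q) (Cy q)) ⊥ K = ∏ ω : Cy q, WZ p ⊤ ⊥ (cmp ω K)

/-- JOB WZB2. The same for the other subgroups; the proof of `t_WZN` in `Q151.DM.WZN` (`p = q` allowed). -/
def S_WZB2 : Prop := ∀ (p q : ℕ) [Fact p.Prime] [Fact q.Prime] (G : Type) [Group G] [Finite G]
  (K : Subgroup (Wc G q)), (∃ x ∈ K, x.right ≠ 1) →
  WZ p (Bs G (Cy q) (Cy q)) ⊥ K = WZ p ⊤ ⊥ (cmp 1 K)

/-- JOB ASB (`t_ASB : S_ADJ → S_WZB1 → S_WZB2 → S_ASB`). The sum over chains in the base group. Proof: as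
`t_ASM` in `Q14.DM.ASM` (`part_a`, `part_b`; `cs_eq` is already for general `X`, `Z`), with `WZB1`, `WZB2`
for `WZM`, `WZN`; the values are in `ℤ`, and in part (a) the function `H ↦ F (Pw H)` is a finite sum of
products: with `f₁ i ω` the inversion of `F₁ i ω` take `g y = ∑ i, ∏ ω, f₁ i ω (y ω)`. -/
def S_ASB : Prop := ∀ (p q : ℕ) [Fact p.Prime] [Fact q.Prime] (G : Type) [Group G] [Finite G]
  (ι : Type) [Fintype ι] (F : Subgroup (Wc G q) → ℤ) (F₁ : ι → Cy q → Subgroup G → ℤ)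
  (Φ : Subgroup G → ℤ),
  (∀ H : Cy q → Subgroup G, F (Pw H) = ∑ i, ∏ ω, F₁ i ω (H ω)) →
  (∀ (L : Subgroup G) (m : Cy q → G),
    F (Lw m L) - F (Bi (Lw m L)) = ((Nat.card L : ℤ) ^ (q - 1)) * Φ L) →
  CS p (Bs G (Cy q) (Cy q)) ⊥ F =
    ∑ i, ∏ ω, CS p ⊤ ⊥ (F₁ i ω) + ((Nat.card G : ℤ) ^ (q - 1)) * CS p ⊤ ⊥ Φ

/-- JOB GCK. Galois automorphisms and `Ind`. Proof. (1) Let `n = |Γ|` and `s ζ = ζ ^ k` for the `n`-th
roots of unity, so `s (χ g) = χ (g ^ k)` for characters of `Γ` and of its subgroups (`exp_of` in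
`Q17.TP.Fin`; `S_GCB` (4), `Q261.RB.GCB`). The classes of `x` and `x ^ k` have the same size, so
`omega (s ∘ χ) x = omega χ (x ^ k)`, and `y ↦ y ^ k` is a bijection from the `y ∈ H` conjugate to `x` onto
those conjugate to `x ^ k`, so the sum for `s ∘ ψ` and `x` is the one for `ψ` and `x ^ k`. The members of
`B'` are the `s ∘ χ`, `χ ∈ B` (use `s⁻¹`). (2) Take `χ ∈ B`, `χ' ∈ B'`; both central characters are
congruent to the one of `ψ`, so `B = B'` (`IsBlock`). (3) `ψ = s ∘ ψ` satisfies `Ind` for `B` and, by (1),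
for `B'`; use (2). (4) `ψ ↦ s ∘ ψ` is a bijection of the sets which are counted (`Mp s⁻¹ B' B`); `t (s (ψ g)) = s (t (ψ g))` (`gal_comm`, search the pool: `Q17.RB`, `Q17.FT.Fin2`
use it; both are `ψ (g ^ (k l))`). -/
def S_GCK : Prop := ∀ (Γ : Type) [Group Γ] [Fintype Γ] (O : ValuationSubring ℂ)
  (s : ℂ ≃+* ℂ) (B B' : Set (Γ → ℂ)), IsBlock O B → IsBlock O B' → ∀ H : Subgroup Γ,
  (Mp s B B' → ∀ ψ : H → ℂ, IsIrr ψ → Ind O B Set.univ H ψ →
    Ind O B' Set.univ H (fun g => s (ψ g))) ∧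
  (∀ ψ : H → ℂ, IsIrr ψ → Ind O B Set.univ H ψ → Ind O B' Set.univ H ψ → B = B') ∧
  (Mp s B B' → ∀ ψ : H → ℂ, IsIrr ψ → (∀ g, s (ψ g) = ψ g) → Ind O B Set.univ H ψ → B = B') ∧
  (Mp s B B' → ∀ K : Set (ℂ ≃+* ℂ), ck O B Set.univ K H = ck O B' Set.univ K H)

/-- JOB UNI (`t_UNI : S_ZPR → S_FXI → S_FXB → S_UNI`). Product characters. Let `ψ ω` be irreducible
characters of the `H ω` and `Ψ` their product, a character of `Pw H`. Proof. For a class function `u` of
`G` with values in `O` put `v ω u = ∑ y : H ω, u y * ψ ω y / ψ ω 1` and `l ω u = Om u χ` for `χ ∈ β ω`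
(modulo `O.nonunits` this does not depend on `χ`, `red_Om`). The values of `v ω` are in `O` (sums of
values of `omega (ψ ω)`). By `S_FXB`, for `χ = nca f ∈ FX β` (`f ω ∈ β ω`) and `x ∈ M` `omega χ x` is the sum of
`prf f y / prf f 1` over the `y ∈ M` conjugate to `x` in `Wc G q`. So if `U : (Cy q → G) → ℂ` has values in
`O` and is invariant under conjugation by `Wc G q` then (sum over the classes) `Ind` implies (1)
`∑ y ∈ Pw H, U y * Ψ y / Ψ 1 ≡ ∑ y ∈ M, U y * prf f y / prf f 1`. (⇒) For a class function `u` of `G` and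
`c ∈ O` take `U y = ∏ ω, (u (y ω) + c * δ (y ω))` (`δ` the characteristic function of `{1}`): (1) gives
`∏ ω, (v ω u + c) ≡ ∏ ω, (l ω u + c)`. With `c = - v ω u`: for every `ω` and `u` there is `ω'` with
`v ω u ≡ l ω' u`. The class functions with values in `O`, modulo those with values in `O.nonunits`, form a
vector space over the residue field, which is infinite (it is algebraically closed; or: it contains
roots of unity of all orders prime to `p`), and it is the union of the finitely many subspaces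
`{u | v ω u ≡ l ω' u}`; so one of them is everything (`Subspace.exists_eq_top_of_iUnion_eq_univ` or a
similar theorem): there is `π : Cy q → Cy q` with `v ω u ≡ l (π ω) u` for all `u`. Now let
`E ω = blockCoeff (β ω)` (values in `O`, `l ω (E ω) ≡ 1`, `l ω' (E ω) ≡ 0` for `ω' ≠ ω`, `Om_blockCoeff`) and
`U y = ∑ b, ∏ ω, E (b * ω) (y ω)`: (1) gives `∑ b, ∏ ω, l (π ω) (E (b * ω)) ≡ 1`, so there is `b` with
`π ω = b * ω` for all `ω`. (⇐) The set of the `y ∈ Pw H` (or `y ∈ M`) conjugate to `x ∈ M` in `Wc G q` is a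
disjoint union of sets `∏ ω, (class of x.left (b * ω) in G)` (intersected with `Pw H`; `b` runs over
representatives, the same for `Pw H` and `M`), and the sum of `Ψ y / Ψ 1` over such a set is a product of
factors congruent to `l (a * ω) (class of x.left (b * ω))`; `∏ ω, l (a * ω) (class of x.left (b * ω))` is the
corresponding term of `omega χ (conjugate of x)`: replace `f` by `f ∘ a` (`nca f = nca (f ∘ a)`). -/
def S_UNI : Prop := ∀ (p q : ℕ) [Fact p.Prime] [Fact q.Prime] (G : Type) [Group G] [Fintype G]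
  (O : ValuationSubring ℂ), (p : ℂ) ∈ O.nonunits → ∀ (D : Subgroup G) (β : Cy q → Set (G → ℂ)),
  Fam p q O D β → ∀ (H : Cy q → Subgroup G) (ψ : ∀ ω, H ω → ℂ), (∀ ω, IsIrr (ψ ω)) →
  (Ind O (FX β) {x | x.right = 1} (Pw H)
      (fun x => ∏ ω, ψ ω ⟨(x : Wc G q).left ω, x.2.2 ω⟩) ↔
    ∃ a : Cy q, ∀ ω, Ind O (β (a * ω)) Set.univ (H ω) (ψ ω))

/-- JOB CKW (`t_CKW : S_ZPR → S_UNI → S_GCK → S_CKW`). The numbers for the `Pw H`. Proof. The irreducible
characters of `Pw H` are the products of irreducible characters of the `H ω`, uniquely (`irr_pc`, `pc_irr`,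
`pc_inj` in `Q252.DM.CDM`). The product is fixed by `s` if and only if all factors are (evaluate at the
elements with all components but one equal to `1`; the degrees are positive integers; `pc_inj`). By
`S_UNI` the product is counted on the left if and only if for some `a` all `ψ ω` are counted for
`β (a * ω)`; `a` is unique by `S_GCK` (2) (`H ω` and two different blocks). -/
def S_CKW : Prop := ∀ (p q : ℕ) [Fact p.Prime] [Fact q.Prime] (G : Type) [Group G] [Fintype G]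
  (O : ValuationSubring ℂ), (p : ℂ) ∈ O.nonunits → ∀ (D : Subgroup G) (β : Cy q → Set (G → ℂ)),
  Fam p q O D β → ∀ (K : Set (ℂ ≃+* ℂ)) (H : Cy q → Subgroup G),
  ck O (FX β) {x | x.right = 1} K (Pw H) =
    ∑ a : Cy q, ∏ ω, ck O (β (a * ω)) Set.univ K (H ω)

/-- JOB CKL (`t_CKL : S_ZPR → S_CLS → S_UNI → S_GCK → S_CKL`). The numbers for the `Lw m L`. Proof.
Conjugation by `m` gives `e : Lw m L ≃* Wc L q` (see `Q14.DM.CDN`, `Bi_eq`), and the irreducible
characters of `Lw m L` are the `nch f ∘ e` (`f` non-constant) and the `cch θ l ∘ e` (`S_CLS`). As in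
`t_CDN`: `Ind` for the set `M` and `nch f ∘ e`, or `cch θ l ∘ e` (then `f = θ` constant), is `Ind` for the
product character of `Bi (Lw m L) = Pw (fun ω => m ω L (m ω)⁻¹)` belonging to `f`; by `S_UNI` it means that
for some `a` all `f ω` satisfy `Ind` for `β (a * ω)` (conjugation by `m ω ∈ G` does not matter), which is
impossible for constant `f` (`S_GCK` (2), `β` injective, `q ≥ 2`). So every counted character is `nch f`
for exactly one `f` with `f ω` counted for `β ω` for all `ω` (replace `f` by `f ∘ a⁻¹`; `S_CLS` (4)). It is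
fixed by `s` if and only if `s ∘ f = f ∘ b` for some `b` (`S_CLS` (4), or `b = 1`). (1) If all `s ∈ K`
stabilise all `β ω`, then `s ∘ f ω` is counted for `β ω` (`S_GCK` (1)), so `b = 1`: all `f ω` are fixed by
`K`. (2) Let `Mv β K`. For `s ∈ K` with translation `a_s`, `s ∘ f ω` is counted for `β (a_s * ω)`, so
`b = a_s`: `f (a_s * ω) = s ∘ f ω`. So `f` is determined by `θ = f 1`, fixed by the `s ∈ K` which stabilise
`β 1` (then `a_s = 1`, `β` is injective), and conversely such a `θ` gives `f a_s = s ∘ θ` (well defined: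
`a_s = a_t` implies that `t⁻¹ * s ∈ K` stabilises `β 1`). -/
def S_CKL : Prop := ∀ (p q : ℕ) [Fact p.Prime] [Fact q.Prime] (G : Type) [Group G] [Fintype G]
  (O : ValuationSubring ℂ), (p : ℂ) ∈ O.nonunits → ∀ (D : Subgroup G) (β : Cy q → Set (G → ℂ)),
  Fam p q O D β → ∀ (K : Set (ℂ ≃+* ℂ)) (L : Subgroup G) (m : Cy q → G),
  ((∀ s ∈ K, ∀ ω, St s (β ω)) → ck O (FX β) {x | x.right = 1} K (Lw m L) =
    ∏ ω, ck O (β ω) Set.univ K L) ∧
  (Mv β K → ck O (FX β) {x | x.right = 1} K (Lw m L) =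
    ck O (β 1) Set.univ {s | s ∈ K ∧ St s (β 1)} L)

/-- JOB OUT (`t_OUT : S_EXI → S_TRS → S_MMX → S_OUT`). Only the chains of subgroups contained in defect
groups contribute. Proof. Let `P ∈ σ`; we may assume that `P` is the greatest member of `σ`. As in the proof
of `S_EXC` (`t_EXC` in the pool, `Q17.DC.Stm2`) one finds, removing the least member of the chain again and
again (`S_EXI`, `S_TRS`), an irreducible character `θ` of the normaliser `N` of `P` such that the sums over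
the `y ∈ N` conjugate to `x` of `θ y / θ 1` are congruent to `omega χ x`, `χ ∈ B`, for all `x` (this is
`S_EXC` for the group `N` and the chain `σ \ {P}`, up to transport; or repeat the induction of `t_EXC` for
the chains with greatest member `P`, from the chain `{P}` on). Let `E = blockCoeff B`; `Om E χ = 1` for
`χ ∈ B`, so (`red_Om`) `∑ y ∈ N, E y * θ y / θ 1` is not in `O.nonunits`. `P` is normal in `N`, so by
`lam_zero` (see `rs_conv`, `red_Om_congr` in `Q176.DC.BRD`, and `t_DZB` in `Q14.AM.DZB`, where this argument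
occurs) there is `x` commuting with all elements of `P` with `E x ∉ O.nonunits`. By `S_MMX` `P` is
conjugate to a subgroup of `D`. -/
def S_OUT : Prop := ∀ (Γ : Type) [Group Γ] [Fintype Γ] (p : ℕ) [Fact p.Prime]
  (O : ValuationSubring ℂ), (p : ℂ) ∈ O.nonunits → ∀ (B : Set (Γ → ℂ)) (D : Subgroup Γ),
  IsBlock O B → IsDefectGroup p O B D → ∀ σ : Set (Subgroup Γ), Ch p ⊤ ⊥ σ →
  (∃ ψ : chainStabilizer σ → ℂ, IsIrr ψ ∧ Ind O B Set.univ (chainStabilizer σ) ψ) →
  ∀ P ∈ σ, ∃ g : Γ, ∀ x ∈ P, g * x * g⁻¹ ∈ D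

/-- JOB CKC (`t_CKC : S_EXC → S_FXI → S_FXB → S_CKC`). For stabilisers of chains the condition on the base
group is enough. Proof: as `t_CDC` in `Q251.DM.CDC` (`exc`, `mem_LX`), with `FX β` for `LX B`: let `ψ` be
irreducible with `Ind` on `M`; by `S_EXC` there is a block `B'` with `Ind` for all `x`; let `χ' ∈ B'`,
`χ ∈ FX β`: `omega χ' x ≡ omega χ x` for `x ∈ M`. `E = blockCoeff (FX β)` has values in `O` and vanishes
outside `M` (the members `nca f` of `FX β` do), so `Om E χ' ≡ Om E χ = 1` and `χ' ∈ FX β`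
(`Om_blockCoeff`), `B' = FX β`. -/
def S_CKC : Prop := ∀ (p q : ℕ) [Fact p.Prime] [Fact q.Prime] (G : Type) [Group G] [Fintype G]
  (O : ValuationSubring ℂ), (p : ℂ) ∈ O.nonunits → ∀ (D : Subgroup G) (β : Cy q → Set (G → ℂ)),
  Fam p q O D β → ∀ σ : Set (Subgroup (Wc G q)), Ch p ⊤ ⊥ σ → ∀ ψ : chainStabilizer σ → ℂ,
  IsIrr ψ → (Ind O (FX β) {x | x.right = 1} (chainStabilizer σ) ψ ↔
    Ind O (FX β) Set.univ (chainStabilizer σ) ψ)

/-- JOB WPK (`t_WPK : S_ALX → S_ASB → S_CKW → S_CKL → S_OUT → S_CKC → S_FXB → S_GCK → S_WPK`). The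
alternating sums for `FX β`. Proof. By `S_ALX` (as in `Q275.DM.DMR`, `CS_eq`; `ck` is invariant under
conjugation of the subgroup) `|Γ| * SK B K = CS p ⊤ ⊥ (fun H => |H| * ck O B univ K H)` for every group
`Γ`. For `Γ = Wc G q`, `|Γ| = q |G| ^ q`, and `FX β`: the terms of the chains with a member not contained in
`M = Bs` vanish by `S_OUT` (a defect group of `FX β` is in the normal subgroup `M`, `S_FXB`), so `⊤` may be
replaced by `M` (a sum over fewer chains), and `univ` by the set `M` (`S_CKC`). Let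
`F H = |H| * ck O (FX β) M K H`. By `S_CKW` `F (Pw H) = ∑ a, ∏ ω, F₁ a ω (H ω)`,
`F₁ a ω L = |L| * ck O (β (a * ω)) univ K L` (`|Pw H| = ∏ |H ω|`). (1) By `S_CKL` (1), `|Lw m L| = q |L| ^ q`, and
`Bi (Lw m L) = Pw (conjugates of L)` (`Bi_eq` in `Q14.DM.CDN`), `F (Lw m L) = F (Bi (Lw m L))`: both are
`q |L| ^ q ∏ ω, ck O (β ω) univ K L`. So `S_ASB` with `Φ = 0` gives
`q |G| ^ q * SK (FX β) K = q * ∏ ω, |G| * SK (β ω) K`. (2) `ck O (β ω) univ K L = 0` for all `ω`, `L`: there is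
`s ∈ K` which maps `β ω` to another block (`Mv.onto`), `S_GCK` (3). So `S_ASB` with `ι = Empty` and
`Φ L = q |L| * ck O (β 1) univ K₁ L` gives `q |G| ^ q * SK (FX β) K = |G| ^ (q - 1) * q * |G| * SK (β 1) K₁`. -/
def S_WPK : Prop := ∀ (p q : ℕ) [Fact p.Prime] [Fact q.Prime] (G : Type) [Group G] [Fintype G]
  (O : ValuationSubring ℂ), (p : ℂ) ∈ O.nonunits → ∀ (D : Subgroup G) (β : Cy q → Set (G → ℂ)),
  Fam p q O D β → ∀ K : Set (ℂ ≃+* ℂ),
  ((∀ s ∈ K, ∀ ω, St s (β ω)) → SK p O (FX β) K = ∏ ω, SK p O (β ω) K) ∧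
  (Mv β K → SK p O (FX β) K = SK p O (β 1) {s | s ∈ K ∧ St s (β 1)})

/-- JOB STF (`t_STF : S_ZPR → S_FXI → S_STF`). The automorphisms which stabilise `FX β`. Proof. (⇒) Let
`f ω ∈ β ω`; `s ∘ nca f = nca (s ∘ f) ∈ FX β`, so `nca (s ∘ f) = nca h` with `h ω ∈ β ω`. On `M` this is an
equality of sums of irreducible characters, so `s ∘ f = h ∘ b` for some `b` (`S_ZPR`, linear
independence; as in `S_FXI`), so `s ∘ f ω ∈ β (b * ω)`. `s` maps blocks onto blocks (`S_GCB`; with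
`s ζ = ζ ^ k` for the `|G|`-th roots of unity the image of `β ω` is `gc k (β ω)`), so `Mp s (β ω)
(β (b * ω))` for all `ω` (different blocks are disjoint). (⇐) For `f ω ∈ β ω` put `h ω = s ∘ f (b⁻¹ * ω)`, in
`β ω`; `s ∘ nca f = nca (s ∘ f) = nca (h ∘ b) = nca h`. The same for `s⁻¹`. -/
def S_STF : Prop := ∀ (p q : ℕ) [Fact p.Prime] [Fact q.Prime] (G : Type) [Group G] [Fintype G]
  (O : ValuationSubring ℂ), (p : ℂ) ∈ O.nonunits → ∀ (D : Subgroup G) (β : Cy q → Set (G → ℂ)),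
  Fam p q O D β → ∀ s : ℂ ≃+* ℂ,
  St s (FX β) ↔ ∃ b : Cy q, ∀ ω, Mp s (β ω) (β (b * ω))

/-- JOB TWK (`t_TWK : S_ALX → S_PRS → S_TWK`). Products. Proof. (1) The irreducible characters of
`H₁.prod H₂` are the products `ψ` of `ψ₁ ∈ Irr H₁` and `ψ₂ ∈ Irr H₂`, uniquely (`t_PCN` in `Q66.OS.Pcn` and
`Q111.OS.PBK` have this). `Ind` for `ψ` and `TB B₁ B₂` (the products `tp χ₁ χ₂`) holds if and only if it
holds for `ψ₁`, `B₁` and for `ψ₂`, `B₂`: the sums and `omega` are multiplicative; for the converse take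
`x = (x₁, 1)`, `(1, x₂)`. `ψ` is fixed by `s` if and only if `ψ₁`, `ψ₂` are. So
`ck O (TB B₁ B₂) univ K (H₁.prod H₂) = ck O B₁ univ K H₁ * ck O B₂ univ K H₂`. As in `t_DPR`
(`Q261.OS.DPR`) `S_ALX` and `S_PRS` for `F H = |H| * ck H` give the product formula. (2) If `p` does not
divide `|V|` the empty chain is the only one, its stabiliser is `⊤`, and the only `θ ∈ Irr V` with a
central character congruent to the one of `ψ` is `ψ` (`{ψ}` is a block, proved in `Q38.FT.PVC`). -/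
def S_TWK : Prop := (∀ (p : ℕ) [Fact p.Prime] (O : ValuationSubring ℂ), (p : ℂ) ∈ O.nonunits →
  ∀ (G₁ G₂ : Type) [Group G₁] [Fintype G₁] [Group G₂] [Fintype G₂] (B₁ : Set (G₁ → ℂ))
  (B₂ : Set (G₂ → ℂ)), IsBlock O B₁ → IsBlock O B₂ → ∀ K : Set (ℂ ≃+* ℂ),
  SK p O (TB B₁ B₂) K = SK p O B₁ K * SK p O B₂ K) ∧
  ∀ (p : ℕ) [Fact p.Prime] (O : ValuationSubring ℂ), (p : ℂ) ∈ O.nonunits →
  ∀ (V : Type) [Group V] [Fintype V], ¬ p ∣ Nat.card V → ∀ ψ : V → ℂ, IsIrr ψ →
  ∀ K : Set (ℂ ≃+* ℂ), (∀ s ∈ K, ∀ v, s (ψ v) = ψ v) → IsBlock O {ψ} ∧ SK p O {ψ} K = 1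

/-- JOB DZK (`t_DZK : S_OUT → S_MMX → S_DZK`). Blocks with a character of defect zero. Proof. Let
`θ ∈ B` with `|Γ| / θ 1 ∉ O.nonunits`. By the first part of the proof of `S_DZB` (`t_DZB` in `Q14.AM.DZB`, docstring
in `Q17.AM.Stm3`) `B = {θ}` and `blockCoeff B x` is a unit of `O` only if no nontrivial `p`-subgroup
centralises `x`; `⊥` is the only defect group (there is one by `S_MMX`). By `S_OUT` no nonempty chain
contributes to the sum; the empty chain has the stabiliser `⊤`, and the characters `ψ` of `⊤` with `Ind`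
are those in `B`. -/
def S_DZK : Prop := ∀ (Γ : Type) [Group Γ] [Fintype Γ] (p : ℕ) [Fact p.Prime]
  (O : ValuationSubring ℂ), (p : ℂ) ∈ O.nonunits → ∀ B : Set (Γ → ℂ), IsBlock O B → ¬ Pos O B →
  SK p O B ∅ = 1

end Pool.Agent.Q17.RR
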